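import Pool.Agent.Lib.H65M.Walk

/-!
# Closed sets of colours, frozen elements, blocks
-/

namespace H65M

open Finset

variable {α : Type*} [DecidableEq α] {ι : Type*} [Fintype ι] [DecidableEq ι]

variable {Q : Sys α ι} {H T T' Z : Finset α} {i j : ι} {k l D N : ℕ}

/-- elements of `T` of colours in `R` -/
def inR (Q : Sys α ι) (R : Finset ι) (T : Finset α) : Finset α := T.filter (fun e => Q.c e ∈ R)

/-- elements of `T` of colours outside `R` -/
def outR (Q : Sys α ι) (R : Finset ι) (T : Finset α) : Finset α := T.filter (fun e => Q.c e ∉ R)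

/-- the elements of colour `j` outside the `P`-closure of `inR R T` -/
noncomputable def Lam (Q : Sys α ι) (R : Finset ι) (T : Finset α) (j : ι) : Finset α := by
  classical exact (Q.B j).filter (fun b => ¬ Q.P.Cl (inR Q R T) b)

lemma mem_Lam {R : Finset ι} {b : α} : b ∈ Lam Q R T j ↔ b ∈ Q.B j ∧ ¬ Q.P.Cl (inR Q R T) b := by
  classical
  unfold Lam
  rw [mem_filter]

lemma inR_union_outR (R : Finset ι) : inR Q R T ∪ outR Q R T = T := by
  unfold inR outR
  exact filter_union_filter_not_eq _ _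

/-- invariant of the states in the ball -/
def Inv (Q : Sys α ι) (R : Finset ι) (T T' : Finset α) : Prop :=
  outR Q R T ⊆ T' ∧ ∀ b ∈ T', Q.c b ∈ R → Q.P.Cl (inR Q R T) b

/-- `b` of the missing colour, free in `M`: in the `P`-closure of `inR T`. -/
lemma cl_inR (hQ : Q.Good N) {T0 : Finset α} {i0 : ι} (h0 : St Q H T0 i0)
    (hw : Wk Q H k T0 i0 T i) (hkD : k + 1 ≤ D)
    (hI : Inv Q (Rc Q H D T0 i0) T0 T) {b : α} (hb : b ∈ Q.B i)
    (hM : ¬ Q.M.Cl (T ∪ H) b) : Q.P.Cl (inR Q (Rc Q H D T0 i0) T0) b := by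
  obtain ⟨C, hCT, hC, hCe⟩ := cl_next hQ (hw.st h0) hb hM
  refine Rk.cl_trans (A := C) (fun e he => ?_) (hC.mono subset_union_right)
  obtain ⟨T', hT'⟩ := hCe e he
  refine hI.2 e (hCT he) ?_
  rw [mem_Rc]
  exact ⟨T', (hw.snoc hT').mono hkD⟩

lemma inv_self : Inv Q (Rc Q H D T i) T T := by
  refine ⟨filter_subset _ _, fun b hb hc => Rk.cl_of_mem ?_⟩
  rw [inR, mem_filter]
  exact ⟨hb, hc⟩

lemma inv_step (hQ : Q.Good N) {T0 : Finset α} {i0 : ι} (h0 : St Q H T0 i0)
    (hw : Wk Q H k T0 i0 T i) (hkD : k + 1 ≤ D)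
    (hI : Inv Q (Rc Q H D T0 i0) T0 T) (hm : Mv Q H T i T' j) :
    Inv Q (Rc Q H D T0 i0) T0 T' := by
  have hjR : j ∈ Rc Q H D T0 i0 := by
    rw [mem_Rc]
    exact ⟨T', (hw.snoc hm).mono hkD⟩
  have hs := hw.st h0
  obtain ⟨a, e, haS, hai, haH, hM, heT, hej, hP, rfl⟩ := hm
  refine ⟨?_, ?_⟩
  · intro x hx
    refine mem_insert_of_mem (mem_erase.mpr ⟨?_, hI.1 hx⟩)
    rintro rfl
    rw [outR, mem_filter] at hx
    exact hx.2 (hej ▸ hjR)
  · intro b hb hbR
    rw [mem_insert, mem_erase] at hb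
    rcases hb with rfl | hb
    · refine cl_inR hQ h0 hw hkD hI (by rw [Sys.B, mem_filter]; exact ⟨haS, hai⟩) ?_
      refine Rk.not_cl_of_ind ?_ hM
      rw [mem_union]
      rintro (h | h)
      · exact hs.notMem hai h
      · exact haH h
    · exact hI.2 b hb.2 hbR

lemma inv_walk (hQ : Q.Good N) {T0 : Finset α} {i0 : ι} (h0 : St Q H T0 i0)
    (hw2 : Wk Q H l T i T' j) :
    ∀ k, k + l ≤ D → Wk Q H k T0 i0 T i → Inv Q (Rc Q H D T0 i0) T0 T →
      Inv Q (Rc Q H D T0 i0) T0 T' := by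
  induction hw2 with
  | nil l T i => intro k _ _ hI; exact hI
  | @cons l T i T1 i1 T2 i2 hm _ ih =>
    intro k hk hw hI
    exact ih (k + 1) (by omega) (hw.snoc hm) (inv_step hQ h0 hw (by omega) hI hm)

lemma inv_of_walk (hQ : Q.Good N) (h0 : St Q H T i) (hw : Wk Q H k T i T' j) (hk : k ≤ D) :
    Inv Q (Rc Q H D T i) T T' :=
  inv_walk hQ h0 hw 0 (by omega) (Wk.nil _ _ _) inv_self

/-- `Λ_j` is covered by every state missing `j` -/
lemma lam_cl (hQ : Q.Good N) (h0 : St Q H T i) (hw : Wk Q H k T i T' j) (hk : k + 1 ≤ D)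
    {b : α} (hb : b ∈ Lam Q (Rc Q H D T i) T j) : Q.M.Cl (T' ∪ H) b := by
  rw [mem_Lam] at hb
  by_contra hM
  exact hb.2 (cl_inR hQ h0 hw hk (inv_of_walk hQ h0 hw (by omega)) hb.1 hM)

lemma card_lam (hQ : Q.Good N) (R : Finset ι) :
    N ≤ (Lam Q R T j).card + (inR Q R T).card := by
  classical
  set A' := (Q.B j).filter (fun b => Q.P.Cl (inR Q R T) b) with hA'
  have hc : A'.card + (Lam Q R T j).card = (Q.B j).card := by
    have := card_filter_add_card_filter_not (s := Q.B j) (fun b => Q.P.Cl (inR Q R T) b)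
    unfold Lam
    convert this using 2
  have h1 : A'.card ≤ (inR Q R T).card :=
    Rk.card_le_of_cl ((hQ.indP j).mono (filter_subset _ _)) (fun a ha => (mem_filter.mp ha).2)
  have h2 := hQ.card j
  omega

lemma lam_ind (hQ : Q.Good N) (R : Finset ι) : Q.M.Ind (Lam Q R T j) :=
  (hQ.indM j).mono (fun _ hx => (mem_Lam.mp hx).1)

lemma card_inR (hs : St Q H T i) {R : Finset ι} (hi : i ∈ R) :
    (inR Q R T).card + 1 = R.card := by
  have h1 : (inR Q R T).image Q.c = R.erase i := by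
    ext x
    rw [mem_image, mem_erase]
    constructor
    · rintro ⟨y, hy, rfl⟩
      rw [inR, mem_filter] at hy
      exact ⟨fun h => hs.notMem h hy.1, hy.2⟩
    · rintro ⟨hx, hxR⟩
      obtain ⟨y, hy, rfl⟩ := hs.exists_mem hx
      exact ⟨y, by rw [inR, mem_filter]; exact ⟨hy, hxR⟩, rfl⟩
  have h2 : ((inR Q R T).image Q.c).card = (inR Q R T).card :=
    card_image_of_injOn (hs.inj.mono (coe_subset.mpr (filter_subset _ _)))
  rw [h1, card_erase_of_mem hi] at h2
  have : 0 < R.card := card_pos.mpr ⟨i, hi⟩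
  omega

/-- **Blocks.** -/
lemma block {c d q : ℕ} (hQ : Q.Good N) (hs : St Q H T i) (hcd : c * d + d ≤ D)
    (hst : ∀ T' i' Z, Wk Q H (c * d) T i T' i' → St Q (H ∪ Z) T' i' → Z ⊆ T → Z.card ≤ c →
      (Rc Q H D T i).card ≤ (Rc Q (H ∪ Z) d T' i').card + q)
    {X : Finset α} (hX : X ⊆ inR Q (Rc Q H D T i) T) (hXc : q + c ≤ X.card) :
    ∀ z ≤ c, ∃ Z ⊆ X, Z.card = z ∧ ∃ T' i', Wk Q H (z * d) T i T' i' ∧
      St Q (H ∪ Z) T' i' ∧ X \ Z ⊆ T' := by
  have hXT : X ⊆ T := hX.trans (filter_subset _ _)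
  intro z
  induction z with
  | zero =>
    intro _
    refine ⟨∅, empty_subset _, rfl, T, i, Wk.nil _ _ _, ?_, ?_⟩
    · rw [union_empty]; exact hs
    · rw [sdiff_empty]; exact hXT
  | succ z ih =>
    intro hz
    obtain ⟨Z, hZX, hZc, T1, i1, hw, hs1, hXZ⟩ := ih (by omega)
    have hzc : z * d ≤ c * d := Nat.mul_le_mul_right _ (by omega)
    -- many colours
    have h1 := hst T1 i1 Z (hw.mono hzc) hs1 (hZX.trans hXT) (by omega)
    have h2 : Rc Q (H ∪ Z) d T1 i1 ⊆ Rc Q H D T i :=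
      (Rc_trans hw).trans (Rc_mono (by omega))
    -- colours of `X \ Z`
    have h3 : ((X \ Z).image Q.c) ⊆ Rc Q H D T i := by
      intro x hx
      rw [mem_image] at hx
      obtain ⟨y, hy, rfl⟩ := hx
      exact (mem_filter.mp (hX (mem_sdiff.mp hy).1)).2
    have h4 : ((X \ Z).image Q.c).card = (X \ Z).card :=
      card_image_of_injOn (hs.inj.mono (coe_subset.mpr (sdiff_subset.trans hXT)))
    have h5 : (X \ Z).card + Z.card = X.card := card_sdiff_add_card_eq_card hZX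
    have h6 : ∃ x ∈ (X \ Z), Q.c x ∈ Rc Q (H ∪ Z) d T1 i1 := by
      by_contra hno
      push Not at hno
      have hd : Disjoint ((X \ Z).image Q.c) (Rc Q (H ∪ Z) d T1 i1) := by
        rw [disjoint_left]
        intro x hx
        rw [mem_image] at hx
        obtain ⟨y, hy, rfl⟩ := hx
        exact hno y hy
      have := card_le_card (union_subset h3 h2)
      rw [card_union_of_disjoint hd] at this
      omega
    obtain ⟨x, hx, hxR⟩ := h6
    rw [mem_Rc] at hxR
    obtain ⟨T2, hw2⟩ := hxR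
    obtain ⟨y, hy, T3, hw3, hsub, hyn, hyI⟩ := hw2.hit hs1 hXZ ⟨x, hx, rfl⟩
    have hyZ : y ∉ Z := (mem_sdiff.mp hy).2
    refine ⟨insert y Z, insert_subset (mem_sdiff.mp hy).1 hZX, ?_, T3, Q.c y, ?_, ?_, ?_⟩
    · rw [card_insert_of_notMem hyZ, hZc]
    · have := hw.trans hw3.anti
      rw [Nat.succ_mul]
      exact this
    · have hs3 := hw3.st hs1
      refine ⟨hs3.sub, hs3.inj, hs3.img, ?_, ?_, hs3.indP⟩
      · refine hyI.mono ?_
        intro u hu
        simp only [mem_union, mem_insert] at hu ⊢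
        tauto
      · rw [disjoint_left]
        intro u hu hu2
        rw [mem_union, mem_insert] at hu2
        rcases hu2 with h | rfl | h
        · exact (disjoint_left.mp hs3.dis) hu (mem_union_left _ h)
        · exact hyn (mem_union_left _ hu)
        · exact (disjoint_left.mp hs3.dis) hu (mem_union_right _ h)
    · intro u hu
      rw [mem_sdiff, mem_insert] at hu
      refine hsub (mem_erase.mpr ⟨fun h => hu.2 (Or.inl h), ?_⟩)
      exact mem_sdiff.mpr ⟨hu.1, fun h => hu.2 (Or.inr h)⟩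

/-- the rank inequality for one block and one good colour -/
lemma rank_block {W U E A Z' : Finset α} {M : Rk α} {c d : ℕ}
    (hU : M.r (U ∪ W) = M.r U) (hUZ : M.r U + c ≤ M.r (U ∪ Z')) (hE : E.card ≤ d)
    (hA : A ⊆ U ∪ W ∪ E) : M.r A + c ≤ M.r (A ∪ Z') + d := by
  have h1 := M.submod (A ∪ Z') (U ∪ W ∪ E)
  have h2 : M.r A ≤ M.r ((A ∪ Z') ∩ (U ∪ W ∪ E)) :=
    M.mono _ _ (subset_inter subset_union_left hA)
  have h3 : M.r (U ∪ Z') ≤ M.r ((A ∪ Z') ∪ (U ∪ W ∪ E)) := by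
    apply M.mono
    intro x hx
    simp only [mem_union] at hx ⊢
    tauto
  have h4 := Rk.r_union_le' (M := M) (U ∪ W) E
  omega

end H65M
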