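import Pool.Agent.Lib.H65M.Block

/-!
# The main inequality
-/

namespace H65M

open Finset

variable {α : Type*} [DecidableEq α] {ι : Type*} [Fintype ι] [DecidableEq ι]

variable {Q : Sys α ι} {H T T' Z : Finset α} {i j : ι} {k l D N : ℕ}

/-- `f_j(X)`: rank of `Λ_j`, `X`, the frozen part of `T` and `H` -/
noncomputable def fr (Q : Sys α ι) (R : Finset ι) (T H X : Finset α) (j : ι) : ℕ :=
  Q.M.r (Lam Q R T j ∪ (X ∪ (outR Q R T ∪ H)))

lemma r_state (hs : St Q H T i) : Q.M.r (T ∪ H) = T.card + H.card := by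
  rw [hs.indM, card_union_of_disjoint hs.dis]

lemma card_state (hs : St Q H T i) (hs' : St Q (H ∪ Z) T' j) : T'.card = T.card := by
  have h1 := hs.card
  have h2 := hs'.card
  omega

/-- the starting bound -/
lemma fr_base {d : ℕ} (hQ : Q.Good N) (hs : St Q H T i) (hd : d + 1 ≤ D)
    (hj : j ∈ Rc Q H d T i) :
    fr Q (Rc Q H D T i) T H (inR Q (Rc Q H D T i) T) j ≤ T.card + H.card + d := by
  rw [mem_Rc] at hj
  obtain ⟨T', hw⟩ := hj
  have hs' := hw.st hs
  have h1 : Q.M.r ((T' ∪ H) ∪ Lam Q (Rc Q H D T i) T j) = Q.M.r (T' ∪ H) :=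
    Rk.r_union_of_cl _ (fun b hb => lam_cl hQ hs hw hd hb)
  have h2 := Rk.r_union_le' (M := Q.M) ((T' ∪ H) ∪ Lam Q (Rc Q H D T i) T j) (T \ T')
  have h3 : fr Q (Rc Q H D T i) T H (inR Q (Rc Q H D T i) T) j ≤
      Q.M.r (((T' ∪ H) ∪ Lam Q (Rc Q H D T i) T j) ∪ (T \ T')) := by
    apply Q.M.mono
    intro x hx
    have hT := inR_union_outR (Q := Q) (T := T) (Rc Q H D T i)
    simp only [mem_union, mem_sdiff] at hx ⊢
    have hx2 : x ∈ Lam Q (Rc Q H D T i) T j ∨ x ∈ T ∨ x ∈ H := by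
      rcases hx with h | h | h | h
      · exact Or.inl h
      · exact Or.inr (Or.inl (hT ▸ mem_union_left _ h))
      · exact Or.inr (Or.inl (hT ▸ mem_union_right _ h))
      · exact Or.inr (Or.inr h)
    tauto
  have h4 := hw.dist
  have h5 := r_state hs'
  have h6 : T'.card = T.card := by
    have h1 := hs.card
    have h2 := hs'.card
    omega
  omega

/-- one block, one good colour -/
lemma fr_block {c d : ℕ} (hQ : Q.Good N) (hs : St Q H T i) (hcd : c * d + d + 1 ≤ D)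
    {X : Finset α} (hX : X ⊆ inR Q (Rc Q H D T i) T) (hZ : Z ⊆ X) (hZc : Z.card = c)
    {T1 : Finset α} {i1 : ι} (hw : Wk Q H (c * d) T i T1 i1) (hs1 : St Q (H ∪ Z) T1 i1)
    (hXZ : X \ Z ⊆ T1) (hj : j ∈ Rc Q (H ∪ Z) d T1 i1) :
    fr Q (Rc Q H D T i) T H (X \ Z) j + c ≤ fr Q (Rc Q H D T i) T H X j + d := by
  rw [mem_Rc] at hj
  obtain ⟨T', hw'⟩ := hj
  have hs' := hw'.st hs1
  have hww : Wk Q H (c * d + d) T i T' j := hw.trans hw'.anti
  have hZT : Z ⊆ T := hZ.trans (hX.trans (filter_subset _ _))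
  have hU : Q.M.r ((T' ∪ H) ∪ Lam Q (Rc Q H D T i) T j) = Q.M.r (T' ∪ H) :=
    Rk.r_union_of_cl _ (fun b hb => lam_cl hQ hs hww hcd hb)
  have hHZ : Disjoint H Z := (hs.dis.mono_left hZT).symm
  have hT'Z : Disjoint T' Z := hs'.dis.mono_right subset_union_right
  have hUZ : Q.M.r (T' ∪ H) + c ≤ Q.M.r ((T' ∪ H) ∪ Z) := by
    have h1 := hs'.indM
    rw [← union_assoc] at h1
    have h2 : Q.M.Ind (T' ∪ H) := h1.mono subset_union_left
    have h3 : Disjoint (T' ∪ H) Z := disjoint_union_left.mpr ⟨hT'Z, hHZ⟩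
    unfold Rk.Ind at h1 h2
    rw [h1, h2, card_union_of_disjoint h3, hZc]
  have hI := inv_of_walk (D := D) hQ hs hw (by omega)
  have hb := rank_block (M := Q.M) (W := Lam Q (Rc Q H D T i) T j) (U := T' ∪ H)
    (E := T1 \ T') (A := Lam Q (Rc Q H D T i) T j ∪ ((X \ Z) ∪ (outR Q (Rc Q H D T i) T ∪ H)))
    (Z' := Z) hU hUZ hw'.dist (by
      intro x hx
      simp only [mem_union, mem_sdiff] at hx ⊢
      have hx2 : x ∈ Lam Q (Rc Q H D T i) T j ∨ x ∈ T1 ∨ x ∈ H := by
        rcases hx with h | h | h | h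
        · exact Or.inl h
        · exact Or.inr (Or.inl (hXZ (mem_sdiff.mpr h)))
        · exact Or.inr (Or.inl (hI.1 h))
        · exact Or.inr (Or.inr h)
      tauto)
  have he : Lam Q (Rc Q H D T i) T j ∪ ((X \ Z) ∪ (outR Q (Rc Q H D T i) T ∪ H)) ∪ Z =
      Lam Q (Rc Q H D T i) T j ∪ (X ∪ (outR Q (Rc Q H D T i) T ∪ H)) := by
    ext x
    have := @hZ x
    simp only [mem_union, mem_sdiff]
    tauto
  rw [he] at hb
  exact hb

lemma fr_mono {R : Finset ι} {X Y : Finset α} (h : X ⊆ Y) :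
    fr Q R T H X j ≤ fr Q R T H Y j := by
  apply Q.M.mono
  exact union_subset_union_right (union_subset_union_left h)

/-- the sum over `j ∈ J` -/
noncomputable def G (Q : Sys α ι) (D d : ℕ) (T H : Finset α) (i : ι) (X : Finset α) : ℕ :=
  ∑ j ∈ Rc Q H d T i, fr Q (Rc Q H D T i) T H X j

lemma G_block_aux {J R1 R : Finset ι} {q c d : ℕ} {g h : ι → ℕ} (hJR : J ⊆ R) (hR1R : R1 ⊆ R)
    (hc1 : R.card ≤ R1.card + q) (h1 : ∀ j ∈ R1, g j + c ≤ h j + d) (h2 : ∀ j, g j ≤ h j) :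
    ∑ j ∈ J, g j + (J.card - q) * (c - d) ≤ ∑ j ∈ J, h j := by
  classical
  have hgood : J.card ≤ (J.filter (fun j => j ∈ R1)).card + q := by
    have h1 : (J.filter (fun j => j ∈ R1)).card + (J.filter (fun j => j ∉ R1)).card = J.card :=
      card_filter_add_card_filter_not _
    have h2 : J.filter (fun j => j ∉ R1) ⊆ R \ R1 := by
      intro x hx
      rw [mem_filter] at hx
      exact mem_sdiff.mpr ⟨hJR hx.1, hx.2⟩
    have h3 := card_le_card h2
    have h4 := card_sdiff_add_card_eq_card hR1R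
    omega
  have hsum : ∑ j ∈ J, (g j + if j ∈ R1 then (c - d) else 0) ≤ ∑ j ∈ J, h j := by
    refine sum_le_sum (fun j _ => ?_)
    by_cases hj : j ∈ R1
    · rw [if_pos hj]
      have := h1 j hj
      have := h2 j
      omega
    · rw [if_neg hj, add_zero]
      exact h2 j
  rw [sum_add_distrib, ← sum_filter, sum_const, smul_eq_mul] at hsum
  have h5 : (J.card - q) * (c - d) ≤ (J.filter (fun j => j ∈ R1)).card * (c - d) :=
    Nat.mul_le_mul_right _ (by omega)
  omega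

lemma G_block {c d q : ℕ} (hQ : Q.Good N) (hs : St Q H T i) (hcd : c * d + d + 1 ≤ D)
    (hdc : d ≤ c)
    (hst : ∀ T' i' Z, Wk Q H (c * d) T i T' i' → St Q (H ∪ Z) T' i' → Z ⊆ T → Z.card ≤ c →
      (Rc Q H D T i).card ≤ (Rc Q (H ∪ Z) d T' i').card + q)
    {X : Finset α} (hX : X ⊆ inR Q (Rc Q H D T i) T) (hXc : q + c ≤ X.card) :
    ∃ X' ⊆ X, X'.card + c = X.card ∧
      G Q D d T H i X' + ((Rc Q H d T i).card - q) * (c - d) ≤ G Q D d T H i X := by
  classical
  obtain ⟨Z, hZX, hZc, T1, i1, hw, hs1, hXZ⟩ :=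
    block hQ hs (by omega) hst hX hXc c le_rfl
  have hZT : Z ⊆ T := hZX.trans (hX.trans (filter_subset _ _))
  refine ⟨X \ Z, sdiff_subset, ?_, ?_⟩
  · rw [← hZc]
    exact card_sdiff_add_card_eq_card hZX
  · have hR1R : Rc Q (H ∪ Z) d T1 i1 ⊆ Rc Q H D T i := (Rc_trans hw).trans (Rc_mono (by omega))
    have hJR : Rc Q H d T i ⊆ Rc Q H D T i := Rc_mono (by omega)
    have hc1 := hst T1 i1 Z hw hs1 hZT (by omega)
    exact G_block_aux hJR hR1R hc1 (fun j hj => fr_block hQ hs hcd hX hZX hZc hw hs1 hXZ hj)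
      (fun j => fr_mono sdiff_subset)

lemma G_iter {c d q : ℕ} (hQ : Q.Good N) (hs : St Q H T i) (hcd : c * d + d + 1 ≤ D)
    (hdc : d ≤ c)
    (hst : ∀ T' i' Z, Wk Q H (c * d) T i T' i' → St Q (H ∪ Z) T' i' → Z ⊆ T → Z.card ≤ c →
      (Rc Q H D T i).card ≤ (Rc Q (H ∪ Z) d T' i').card + q) :
    ∀ p, p * c + q ≤ (inR Q (Rc Q H D T i) T).card →
      ∃ X ⊆ inR Q (Rc Q H D T i) T, X.card + p * c = (inR Q (Rc Q H D T i) T).card ∧
        G Q D d T H i X + p * (((Rc Q H d T i).card - q) * (c - d)) ≤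
          G Q D d T H i (inR Q (Rc Q H D T i) T) := by
  intro p
  induction p with
  | zero =>
    intro _
    exact ⟨_, Subset.refl _, by simp, by simp⟩
  | succ p ih =>
    intro hp
    rw [Nat.succ_mul] at hp
    obtain ⟨X, hX, hXc, hG⟩ := ih (by omega)
    obtain ⟨X', hX', hX'c, hG'⟩ := G_block hQ hs hcd hdc hst hX (by omega)
    refine ⟨X', hX'.trans hX, ?_, ?_⟩
    · rw [Nat.succ_mul]
      omega
    · rw [Nat.succ_mul]
      omega

/-- **Main inequality.** -/
theorem main_ineq {c d q : ℕ} (hQ : Q.Good N) (hs : St Q H T i) (hcd : c * d + d + 1 ≤ D)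
    (hdc : d ≤ c) (hc : 0 < c) (hqJ : q ≤ (Rc Q H d T i).card)
    (hst : ∀ T' i' Z, Wk Q H (c * d) T i T' i' → St Q (H ∪ Z) T' i' → Z ⊆ T → Z.card ≤ c →
      (Rc Q H D T i).card ≤ (Rc Q (H ∪ Z) d T' i').card + q) :
    ∃ p, p * c ≤ T.card ∧ N ≤ T.card + H.card + d + p * d + 3 * q + c := by
  classical
  set I := (inR Q (Rc Q H D T i) T).card with hI
  set J := (Rc Q H d T i).card with hJ
  have hIT : I ≤ T.card := card_le_card (filter_subset _ _)
  have hRI : I + 1 = (Rc Q H D T i).card := card_inR hs self_mem_Rc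
  have hRJ : (Rc Q H D T i).card ≤ J + q := by
    have := hst T i ∅ (Wk.nil _ _ _) (by rw [union_empty]; exact hs) (empty_subset _) (by simp)
    rw [union_empty] at this
    exact this
  have hJpos : 0 < J := card_pos.mpr ⟨i, self_mem_Rc⟩
  -- number of blocks
  obtain ⟨p, hp1, hp2⟩ : ∃ p, (p = 0 ∨ p * c + q ≤ I) ∧ I < p * c + q + c := by
    by_cases hqI : q ≤ I
    · refine ⟨(I - q) / c, Or.inr ?_, ?_⟩
      · have := Nat.div_mul_le_self (I - q) c
        omega
      · have := Nat.lt_div_mul_add (a := I - q) hc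
        omega
    · exact ⟨0, Or.inl rfl, by omega⟩
  have hpc : p * c ≤ I := by
    rcases hp1 with rfl | h
    · simp
    · omega
  obtain ⟨X, hX, hXc, hG⟩ : ∃ X ⊆ inR Q (Rc Q H D T i) T, X.card + p * c = I ∧
        G Q D d T H i X + p * ((J - q) * (c - d)) ≤
          G Q D d T H i (inR Q (Rc Q H D T i) T) := by
    rcases hp1 with rfl | h
    · exact ⟨_, Subset.refl _, by simp [hI], by simp⟩
    · exact G_iter hQ hs hcd hdc hst p h
  -- upper bound at the start
  have hup : G Q D d T H i (inR Q (Rc Q H D T i) T) ≤ J * (T.card + H.card + d) := by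
    unfold G
    rw [hJ, ← smul_eq_mul, ← sum_const]
    refine sum_le_sum (fun j hj => fr_base hQ hs ?_ hj)
    have : c * d + d + 1 ≤ D := hcd
    omega
  -- lower bound at the end
  have hlow : J * N ≤ G Q D d T H i X + J * I := by
    unfold G
    have h1 : ∀ j ∈ Rc Q H d T i, N ≤ fr Q (Rc Q H D T i) T H X j + I := by
      intro j _
      have h2 : (Lam Q (Rc Q H D T i) T j).card ≤ fr Q (Rc Q H D T i) T H X j := by
        rw [← lam_ind hQ (Rc Q H D T i)]
        exact Q.M.mono _ _ subset_union_left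
      have h3 := card_lam (T := T) (j := j) hQ (Rc Q H D T i)
      omega
    have h4 := sum_le_sum h1
    rw [sum_const, sum_add_distrib, sum_const, smul_eq_mul, smul_eq_mul] at h4
    exact h4
  refine ⟨p, hpc.trans hIT, ?_⟩
  -- arithmetic
  obtain ⟨u, hu⟩ : ∃ u, J = q + u := ⟨J - q, by omega⟩
  obtain ⟨v, hv⟩ : ∃ v, c = d + v := ⟨c - d, by omega⟩
  have hJq : J - q = u := by omega
  have hcd' : c - d = v := by omega
  rw [hJq, hcd'] at hG
  have hmain : J * N + p * (u * v) ≤ J * (T.card + H.card + d) + J * I := by omega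
  -- J p c ≤ p u v + J p d + q p c
  have h1 : J * (p * c) ≤ p * (u * v) + J * (p * d) + q * (p * c) := by
    rw [hu, hv]
    nlinarith [Nat.zero_le (q * (p * d)), Nat.zero_le (p * u * d)]
  have h2 : q * (p * c) ≤ J * (2 * q) := by
    have : p * c ≤ 2 * J := by omega
    calc q * (p * c) ≤ q * (2 * J) := Nat.mul_le_mul_left _ this
      _ = J * (2 * q) := by ring
  have h3 : J * (N + p * c) ≤ J * (T.card + H.card + d + I + p * d + 2 * q) := by
    have e1 : J * (N + p * c) = J * N + J * (p * c) := by ring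
    have e2 : J * (T.card + H.card + d + I + p * d + 2 * q) =
        J * (T.card + H.card + d) + J * I + J * (p * d) + J * (2 * q) := by ring
    rw [e1, e2]
    omega
  have h4 := Nat.le_of_mul_le_mul_left h3 hJpos
  omega

end H65M
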