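import Pool.Agent.Lib.H65M.Ineq

/-!
# Induction over the levels
-/

namespace H65M

open Finset

/-- radii -/
def rad (E : ℕ) : ℕ → ℕ
  | 0 => 1
  | k + 1 => 8 * E * rad E k * rad E k + rad E k + 1

/-- block sizes -/
def blk (E k : ℕ) : ℕ := 8 * E * rad E k

/-- total handicaps below level `k` -/
def tot (E : ℕ) : ℕ → ℕ
  | 0 => 0
  | k + 1 => tot E k + blk E k

lemma rad_pos (E k : ℕ) : 0 < rad E k := by
  cases k with
  | zero => exact Nat.one_pos
  | succ k => unfold rad; omega

lemma rad_succ (E k : ℕ) : rad E (k + 1) = 8 * E * rad E k * rad E k + rad E k + 1 := rfl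

lemma rad_mono (E : ℕ) {k l : ℕ} (h : k ≤ l) : rad E k ≤ rad E l := by
  induction h with
  | refl => exact le_rfl
  | step _ ih =>
    refine ih.trans ?_
    rw [rad_succ]
    omega

lemma tot_mono (E : ℕ) {k l : ℕ} (h : k ≤ l) : tot E k ≤ tot E l := by
  induction h with
  | refl => exact le_rfl
  | step _ ih =>
    refine ih.trans ?_
    rw [tot]
    omega

variable {α : Type*} [DecidableEq α] {ι : Type*} [Fintype ι] [DecidableEq ι]
  {Q : Sys α ι} {N : ℕ}

/-- the constant -/
def n0 (E : ℕ) : ℕ := 2 * E * (tot E (32 * E) + rad E (32 * E) + 3)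

theorem level {E n : ℕ} (hE : 0 < E) (hQ : Q.Good N) (hm : Fintype.card ι ≤ n)
    (hN : E * n + n ≤ E * N) (hn : n0 E ≤ n) :
    ∀ k ≤ 32 * E, ∀ (T H : Finset α) (i : ι), St Q H T i →
      H.card + tot E k ≤ tot E (32 * E) →
      (n / (32 * E) + 1) * k < (Rc Q H (rad E k) T i).card := by
  intro k
  induction k with
  | zero =>
    intro _ T H i _ _
    rw [mul_zero]
    exact card_pos.mpr ⟨i, self_mem_Rc⟩
  | succ k ih =>
    intro hk T H i hs hH
    by_contra hcon
    push Not at hcon
    set q := n / (32 * E) + 1 with hq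
    have hqn : 32 * E * q ≤ n + 32 * E := by
      have := Nat.mul_div_le n (32 * E)
      rw [hq]
      nlinarith
    rw [show tot E (k + 1) = tot E k + blk E k from rfl] at hH
    have hd := rad_pos E k
    have hTn : T.card + 1 ≤ n := hs.card.le.trans hm
    have hradK : rad E k ≤ rad E (32 * E) := rad_mono E (by omega)
    unfold n0 at hn
    -- stability
    have hst : ∀ T' i' Z, Wk Q H (blk E k * rad E k) T i T' i' → St Q (H ∪ Z) T' i' → Z ⊆ T →
        Z.card ≤ blk E k →
        (Rc Q H (rad E (k + 1)) T i).card ≤ (Rc Q (H ∪ Z) (rad E k) T' i').card + q := by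
      intro T' i' Z _ hs' _ hZ
      have h1 : (H ∪ Z).card ≤ H.card + Z.card := card_union_le _ _
      have h2 := ih (by omega) T' (H ∪ Z) i' hs' (by omega)
      rw [Nat.mul_succ] at hcon
      omega
    -- many colours
    have hfs := first_step hQ hs
    have hJ1 : (Rc Q H 1 T i).card ≤ (Rc Q H (rad E k) T i).card :=
      card_le_card (Rc_mono hd)
    have hHle : H.card ≤ tot E (32 * E) := by omega
    have hqJ : q ≤ (Rc Q H (rad E k) T i).card := by
      by_contra hlt
      push Not at hlt
      have h1 : N ≤ T.card + H.card + q := by omega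
      have h2 : E * N ≤ E * (T.card + H.card + q) := Nat.mul_le_mul_left _ h1
      have h3 : E * H.card ≤ E * tot E (32 * E) := Nat.mul_le_mul_left _ hHle
      have h4 : E * (T.card + 1) ≤ E * n := Nat.mul_le_mul_left _ hTn
      nlinarith
    obtain ⟨p, hp1, hp2⟩ := main_ineq (D := rad E (k + 1)) (c := blk E k) (d := rad E k) hQ hs
      (by rw [rad_succ]; unfold blk; exact le_rfl)
      (by unfold blk; nlinarith) (by unfold blk; positivity) hqJ hst
    -- contradiction
    have e1 : H.card + blk E k ≤ tot E (32 * E) := by omega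
    have e2 : E * N ≤ E * (T.card + H.card + rad E k + p * rad E k + 3 * q + blk E k) :=
      Nat.mul_le_mul_left _ hp2
    have e3 : 8 * (E * (p * rad E k)) ≤ n := by
      have : p * blk E k = 8 * (E * (p * rad E k)) := by unfold blk; ring
      omega
    have e4 : E * (H.card + blk E k) ≤ E * tot E (32 * E) := Nat.mul_le_mul_left _ e1
    have e5 : E * rad E k ≤ E * rad E (32 * E) := Nat.mul_le_mul_left _ hradK
    have e6 : E * (T.card + 1) ≤ E * n := Nat.mul_le_mul_left _ hTn
    nlinarith

/-- no states at all in a good system -/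
theorem no_state {E n : ℕ} (hE : 0 < E) (hQ : Q.Good N) (hm : Fintype.card ι ≤ n)
    (hN : E * n + n ≤ E * N) (hn : n0 E ≤ n) {T : Finset α} {i : ι} (hs : St Q ∅ T i) : False := by
  have h1 := level hE hQ hm hN hn (32 * E) le_rfl T ∅ i hs (by simp)
  have h2 : (Rc Q ∅ (rad E (32 * E)) T i).card ≤ Fintype.card ι := card_le_univ _
  have h3 : n < (n / (32 * E) + 1) * (32 * E) := by
    have := Nat.lt_div_mul_add (a := n) (b := 32 * E) (by omega)
    rw [Nat.add_mul, one_mul]
    exact this
  omega

end H65M
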