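import Pool.Agent.Lib.H65M.Level

/-!
# From rank functions to matroids, induction on the number of colours
-/

namespace H65M

open Finset

lemma greedy_no_state {α : Type*} [DecidableEq α] {ι : Type*} [Fintype ι] [DecidableEq ι]
    {Q : Sys α ι} {N : ℕ} (hQ : Q.Good N) {T : Finset α} {i : ι} (hs : St Q ∅ T i)
    (h : 2 * T.card < N) : False := by
  classical
  have h1 : ((Q.B i).filter (fun b => Q.M.Cl T b)).card ≤ T.card :=
    Rk.card_le_of_cl ((hQ.indM i).mono (filter_subset _ _)) (fun a ha => (mem_filter.mp ha).2)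
  have h2 : ((Q.B i).filter (fun b => ¬ Q.M.Cl T b)).card ≤ T.card := by
    refine Rk.card_le_of_cl ((hQ.indP i).mono (filter_subset _ _)) (fun a ha => ?_)
    rw [mem_filter] at ha
    obtain ⟨C, hCT, hC, -⟩ := cl_next hQ hs ha.1 (by rw [union_empty]; exact ha.2)
    exact hC.mono hCT
  have h3 : ((Q.B i).filter (fun b => Q.M.Cl T b)).card +
      ((Q.B i).filter (fun b => ¬ Q.M.Cl T b)).card = (Q.B i).card :=
    card_filter_add_card_filter_not _
  have h4 := hQ.card i
  omega

section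

variable {β γ : Type*} [DecidableEq γ]

lemma eRk_image_ne_top (M : Matroid β) (f : γ → β) (X : Finset γ) :
    M.eRk (f '' (X : Set γ)) ≠ ⊤ := by
  have h1 := M.eRk_le_encard (f '' (X : Set γ))
  have h2 : (f '' (X : Set γ)).Finite := X.finite_toSet.image f
  exact (h1.trans_lt h2.encard_lt_top).ne

/-- the rank function of the pull back of a matroid -/
noncomputable def ofM (M : Matroid β) (f : γ → β) : Rk γ where
  r X := (M.eRk (f '' (X : Set γ))).toNat
  le_card X := by
    have h1 := M.eRk_le_encard (f '' (X : Set γ))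
    have h2 : (f '' (X : Set γ)).encard ≤ (X : Set γ).encard := Set.encard_image_le _ _
    rw [Set.encard_coe_eq_coe_finsetCard] at h2
    have h3 := h1.trans h2
    rw [← ENat.coe_toNat (eRk_image_ne_top M f X)] at h3
    exact_mod_cast h3
  mono X Y h := by
    apply ENat.toNat_le_toNat _ (eRk_image_ne_top M f Y)
    exact M.eRk_mono (Set.image_mono (coe_subset.mpr h))
  submod X Y := by
    have h1 := M.eRk_inter_add_eRk_union_le (f '' (X : Set γ)) (f '' (Y : Set γ))
    have h2 : M.eRk (f '' ((X ∩ Y : Finset γ) : Set γ)) ≤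
        M.eRk (f '' (X : Set γ) ∩ f '' (Y : Set γ)) := by
      apply M.eRk_mono
      rw [coe_inter]
      exact Set.image_inter_subset _ _ _
    have h3 : f '' ((X ∪ Y : Finset γ) : Set γ) = f '' (X : Set γ) ∪ f '' (Y : Set γ) := by
      rw [coe_union, Set.image_union]
    have h4 : M.eRk (f '' ((X ∩ Y : Finset γ) : Set γ)) + M.eRk (f '' ((X ∪ Y : Finset γ) : Set γ)) ≤
        M.eRk (f '' (X : Set γ)) + M.eRk (f '' (Y : Set γ)) := by
      refine le_trans ?_ h1
      rw [h3]
      gcongr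
    rw [← ENat.coe_toNat (eRk_image_ne_top M f X), ← ENat.coe_toNat (eRk_image_ne_top M f Y),
      ← ENat.coe_toNat (eRk_image_ne_top M f (X ∩ Y)),
      ← ENat.coe_toNat (eRk_image_ne_top M f (X ∪ Y))] at h4
    have h5 : ((M.eRk (f '' ((X ∩ Y : Finset γ) : Set γ))).toNat +
        (M.eRk (f '' ((X ∪ Y : Finset γ) : Set γ))).toNat) ≤
        ((M.eRk (f '' (X : Set γ))).toNat + (M.eRk (f '' (Y : Set γ))).toNat) := by
      exact_mod_cast h4
    omega

lemma ofM_ind_iff (M : Matroid β) (f : γ → β) (X : Finset γ) :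
    (ofM M f).Ind X ↔ M.Indep (f '' (X : Set γ)) ∧ Set.InjOn f (X : Set γ) := by
  have hfin : (f '' (X : Set γ)).Finite := X.finite_toSet.image f
  constructor
  · intro h
    have h1 := M.eRk_le_encard (f '' (X : Set γ))
    have h2 : (f '' (X : Set γ)).encard ≤ (X : Set γ).encard := Set.encard_image_le _ _
    have h3 : M.eRk (f '' (X : Set γ)) = (X : Set γ).encard := by
      rw [Set.encard_coe_eq_coe_finsetCard, ← ENat.coe_toNat (eRk_image_ne_top M f X)]
      exact_mod_cast h
    have h4 : (f '' (X : Set γ)).encard = (X : Set γ).encard := le_antisymm h2 (h3 ▸ h1)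
    refine ⟨?_, ?_⟩
    · rw [Matroid.indep_iff_eRk_eq_encard_of_finite hfin, h3, h4]
    · exact X.finite_toSet.injOn_of_encard_image_eq h4
  · rintro ⟨h1, h2⟩
    have h3 := h1.eRk_eq_encard
    rw [h2.encard_image, Set.encard_coe_eq_coe_finsetCard] at h3
    show (M.eRk (f '' (X : Set γ))).toNat = X.card
    rw [h3, ENat.toNat_coe]

end

/-- full common independent transversal -/
def Full {β : Type*} (M₁ M₂ : Matroid β) {m : ℕ} (B : Fin m → Finset β) : Prop :=
  ∃ f : Fin m → β, Function.Injective f ∧ (∀ i, f i ∈ B i) ∧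
    M₁.Indep (Set.range f) ∧ M₂.Indep (Set.range f)

/-- the system of a family of finite sets -/
noncomputable def sysOf {β : Type*} [DecidableEq β] (M₁ M₂ : Matroid β) {m : ℕ}
    (B : Fin m → Finset β) : Sys (Fin m × β) (Fin m) where
  M := ofM M₁ Prod.snd
  P := ofM M₂ Prod.snd
  S := univ.biUnion (fun i => (B i).image (fun b => (i, b)))
  c := Prod.fst

section

variable {β : Type*} [DecidableEq β] {M₁ M₂ : Matroid β} {m N : ℕ}

lemma mem_sysS {B : Fin m → Finset β} {p : Fin m × β} :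
    p ∈ (sysOf M₁ M₂ B).S ↔ p.2 ∈ B p.1 := by
  unfold sysOf
  rw [mem_biUnion]
  constructor
  · rintro ⟨i, -, h⟩
    rw [mem_image] at h
    obtain ⟨b, hb, rfl⟩ := h
    exact hb
  · intro h
    exact ⟨p.1, mem_univ _, mem_image.mpr ⟨p.2, h, rfl⟩⟩

lemma sysB {B : Fin m → Finset β} (i : Fin m) :
    (sysOf M₁ M₂ B).B i = (B i).image (fun b => (i, b)) := by
  ext p
  rw [Sys.B, mem_filter, mem_sysS, mem_image]
  constructor
  · rintro ⟨h1, h2⟩
    have h2' : p.1 = i := h2
    subst h2'
    exact ⟨p.2, h1, rfl⟩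
  · rintro ⟨b, hb, rfl⟩
    exact ⟨hb, rfl⟩

lemma pair_inj (i : Fin m) : Function.Injective (fun b : β => (i, b)) := by
  intro a b h
  exact (Prod.mk.inj h).2

lemma ind_pair (M : Matroid β) {X : Finset β} (i : Fin m) (h : M.Indep (X : Set β)) :
    (ofM M (Prod.snd : Fin m × β → β)).Ind (X.image (fun b => (i, b))) := by
  rw [ofM_ind_iff]
  have h1 : (Prod.snd : Fin m × β → β) '' ((X.image (fun b => (i, b)) : Finset (Fin m × β)) :
      Set (Fin m × β)) = (X : Set β) := by
    ext b
    simp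
  refine ⟨h1 ▸ h, ?_⟩
  intro p hp q hq hpq
  rw [mem_coe, mem_image] at hp hq
  obtain ⟨a, -, rfl⟩ := hp
  obtain ⟨b, -, rfl⟩ := hq
  have : a = b := hpq
  rw [this]

lemma good_of_not_full {B : Fin m → Finset β}
    (hB : ∀ i, N ≤ (B i).card ∧ M₁.Indep (B i : Set β) ∧ M₂.Indep (B i : Set β))
    (hno : ¬ Full M₁ M₂ B) : (sysOf M₁ M₂ B).Good N where
  card i := by
    rw [sysB, card_image_of_injective _ (pair_inj i)]
    exact (hB i).1
  indM i := by
    rw [sysB]
    exact ind_pair M₁ i (hB i).2.1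
  indP i := by
    rw [sysB]
    exact ind_pair M₂ i (hB i).2.2
  nofull F hF hinj himg hM hP := by
    apply hno
    have hM' := (ofM_ind_iff M₁ Prod.snd F).mp hM
    have hP' := (ofM_ind_iff M₂ Prod.snd F).mp hP
    have hex : ∀ i : Fin m, ∃ b : β, (i, b) ∈ F := by
      intro i
      have : i ∈ F.image (sysOf M₁ M₂ B).c := by rw [himg]; exact mem_univ _
      rw [mem_image] at this
      obtain ⟨p, hp, hpi⟩ := this
      have hpi' : p.1 = i := hpi
      exact ⟨p.2, by rw [← hpi']; exact hp⟩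
    choose f hf using hex
    have hrange : Set.range f = Prod.snd '' (F : Set (Fin m × β)) := by
      ext b
      constructor
      · rintro ⟨i, rfl⟩
        exact ⟨(i, f i), hf i, rfl⟩
      · rintro ⟨p, hp, rfl⟩
        refine ⟨p.1, ?_⟩
        have : (p.1, f p.1) = p := hinj (hf p.1) hp rfl
        exact congrArg Prod.snd this
    refine ⟨f, ?_, fun i => ?_, ?_, ?_⟩
    · intro i j hij
      have := hM'.2 (hf i) (hf j) hij
      exact congrArg Prod.fst this
    · have := hF (hf i)
      rw [mem_sysS] at this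
      exact this
    · rw [hrange]; exact hM'.1
    · rw [hrange]; exact hP'.1

lemma st_of_full {B : Fin (m + 1) → Finset β}
    (h : Full M₁ M₂ (fun i : Fin m => B i.castSucc)) :
    ∃ T, St (sysOf M₁ M₂ B) ∅ T (Fin.last m) := by
  obtain ⟨f, hf, hfB, h1, h2⟩ := h
  set T : Finset (Fin (m + 1) × β) := univ.image (fun i : Fin m => (i.castSucc, f i)) with hT
  have himg : (Prod.snd : Fin (m + 1) × β → β) '' (T : Set (Fin (m + 1) × β)) = Set.range f := by
    ext b
    simp [hT]
  have hinj : Set.InjOn (Prod.snd : Fin (m + 1) × β → β) (T : Set (Fin (m + 1) × β)) := by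
    intro p hp q hq hpq
    rw [mem_coe, hT, mem_image] at hp hq
    obtain ⟨i, -, rfl⟩ := hp
    obtain ⟨j, -, rfl⟩ := hq
    have : i = j := hf hpq
    rw [this]
  refine ⟨T, ?_, ?_, ?_, ?_, disjoint_empty_right _, ?_⟩
  · intro p hp
    rw [hT, mem_image] at hp
    obtain ⟨i, -, rfl⟩ := hp
    rw [mem_sysS]
    exact hfB i
  · intro p hp q hq hpq
    rw [mem_coe, hT, mem_image] at hp hq
    obtain ⟨i, -, rfl⟩ := hp
    obtain ⟨j, -, rfl⟩ := hq
    have h3 : i.castSucc = j.castSucc := hpq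
    have : i = j := Fin.castSucc_injective m h3
    rw [this]
  · ext j
    rw [mem_image, mem_erase]
    constructor
    · rintro ⟨p, hp, rfl⟩
      rw [hT, mem_image] at hp
      obtain ⟨i, -, rfl⟩ := hp
      exact ⟨(Fin.castSucc_lt_last i).ne, mem_univ _⟩
    · rintro ⟨hj, -⟩
      obtain ⟨i, rfl⟩ := Fin.exists_castSucc_eq.mpr hj
      exact ⟨(i.castSucc, f i), mem_image.mpr ⟨i, mem_univ _, rfl⟩, rfl⟩
  · rw [union_empty]
    exact (ofM_ind_iff M₁ Prod.snd T).mpr ⟨himg ▸ h1, hinj⟩
  · exact (ofM_ind_iff M₂ Prod.snd T).mpr ⟨himg ▸ h2, hinj⟩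

/-- induction on the number of sets -/
theorem full_of_card {n : ℕ} (hN : 2 * n ≤ N + 1 ∨
      ∃ E, 0 < E ∧ E * n + n ≤ E * N ∧ n0 E ≤ n) :
    ∀ m ≤ n, ∀ B : Fin m → Finset β,
      (∀ i, N ≤ (B i).card ∧ M₁.Indep (B i : Set β) ∧ M₂.Indep (B i : Set β)) →
      Full M₁ M₂ B := by
  intro m
  induction m with
  | zero =>
    intro _ B _
    refine ⟨fun i => i.elim0, fun i => i.elim0, fun i => i.elim0, ?_, ?_⟩
    · rw [Set.range_eq_empty]; exact M₁.empty_indep
    · rw [Set.range_eq_empty]; exact M₂.empty_indep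
  | succ m ih =>
    intro hm B hB
    by_contra hno
    have hgood := good_of_not_full hB hno
    obtain ⟨T, hs⟩ := st_of_full (B := B) (ih (by omega) _ (fun i => hB i.castSucc))
    have hc := hs.card
    rw [Fintype.card_fin] at hc
    rcases hN with hN | ⟨E, hE, hEN, hn0⟩
    · exact greedy_no_state hgood hs (by omega)
    · exact no_state hE hgood (by rw [Fintype.card_fin]; exact hm) hEN hn0 hs

end

end H65M
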