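import Pool.Agent.Lib.H65M.Main

/-!
# The size of `n0 E`
-/

namespace H65M

lemma ten_le {E : ℕ} (hE : 0 < E) : 10 * E ≤ 2 ^ (4 * E) := by
  rw [pow_mul]
  norm_num
  induction E with
  | zero => omega
  | succ E ih =>
    rcases Nat.eq_zero_or_pos E with rfl | h
    · norm_num
    · have := ih h
      rw [pow_succ]
      omega

lemma seventytwo_le {E : ℕ} (hE : 0 < E) : 72 * E * E ≤ 2 ^ (7 * E) := by
  rw [pow_mul]
  norm_num
  induction E with
  | zero => omega
  | succ E ih =>
    rcases Nat.eq_zero_or_pos E with rfl | h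
    · norm_num
    · have := ih h
      rw [pow_succ]
      nlinarith

lemma rad_le {E : ℕ} (hE : 0 < E) (k : ℕ) : 10 * E * rad E k ≤ (10 * E) ^ (2 ^ k) := by
  induction k with
  | zero => simp [rad]
  | succ k ih =>
    rw [rad_succ, pow_succ, pow_mul, pow_two]
    have hr := rad_pos E k
    calc 10 * E * (8 * E * rad E k * rad E k + rad E k + 1)
        ≤ (10 * E * rad E k) * (10 * E * rad E k) := by
          have h1 : rad E k ≤ E * rad E k * rad E k :=
            Nat.le_mul_of_pos_left _ (Nat.mul_pos hE hr)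
          have h2 : 1 ≤ E * rad E k * rad E k := by
            have : 0 < E * rad E k * rad E k := by positivity
            omega
          have h3 : 8 * E * rad E k * rad E k + rad E k + 1 ≤ 10 * E * rad E k * rad E k := by
            nlinarith
          calc 10 * E * (8 * E * rad E k * rad E k + rad E k + 1)
              ≤ 10 * E * (10 * E * rad E k * rad E k) := Nat.mul_le_mul_left _ h3
            _ = (10 * E) * (10 * E * rad E k * rad E k) := by ring
            _ ≤ (10 * E * rad E k) * (10 * E * rad E k) := by nlinarith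
      _ ≤ (10 * E) ^ (2 ^ k) * (10 * E) ^ (2 ^ k) := Nat.mul_le_mul ih ih

lemma tot_le (E k : ℕ) (hE : 0 < E) : tot E k ≤ k * rad E k := by
  induction k with
  | zero => simp [tot]
  | succ k ih =>
    rw [tot]
    have h1 : blk E k ≤ rad E (k + 1) := by
      rw [rad_succ, blk]
      have h3 : 8 * E * rad E k ≤ 8 * E * rad E k * rad E k :=
        Nat.le_mul_of_pos_right _ (rad_pos E k)
      omega
    have h2 : rad E k ≤ rad E (k + 1) := rad_mono E (by omega)
    nlinarith

lemma n0_le {E : ℕ} (hE : 0 < E) : n0 E ≤ 2 ^ (2 ^ (36 * E)) := by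
  have h1 := tot_le E (32 * E) hE
  have h2 := rad_le hE (32 * E)
  have h3 := rad_pos E (32 * E)
  have h4 : n0 E ≤ 72 * E * E * rad E (32 * E) := by
    unfold n0
    have : tot E (32 * E) + rad E (32 * E) + 3 ≤ 36 * E * rad E (32 * E) := by nlinarith
    calc 2 * E * (tot E (32 * E) + rad E (32 * E) + 3) ≤ 2 * E * (36 * E * rad E (32 * E)) :=
          Nat.mul_le_mul_left _ this
      _ = 72 * E * E * rad E (32 * E) := by ring
  have h5 : rad E (32 * E) ≤ (2 ^ (4 * E)) ^ (2 ^ (32 * E)) := by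
    calc rad E (32 * E) ≤ 10 * E * rad E (32 * E) := by nlinarith
      _ ≤ (10 * E) ^ (2 ^ (32 * E)) := h2
      _ ≤ (2 ^ (4 * E)) ^ (2 ^ (32 * E)) := Nat.pow_le_pow_left (ten_le hE) _
  calc n0 E ≤ 72 * E * E * rad E (32 * E) := h4
    _ ≤ 2 ^ (7 * E) * (2 ^ (4 * E)) ^ (2 ^ (32 * E)) := Nat.mul_le_mul (seventytwo_le hE) h5
    _ = 2 ^ (7 * E + 4 * E * 2 ^ (32 * E)) := by rw [← pow_mul, ← pow_add]
    _ ≤ 2 ^ (2 ^ (36 * E)) := by
        apply Nat.pow_le_pow_right (by norm_num)
        have h6 : 1 ≤ 2 ^ (32 * E) := Nat.one_le_two_pow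
        have h7 : 11 * E ≤ 2 ^ (4 * E) := by
          rw [pow_mul]
          norm_num
          clear h1 h2 h3 h4 h5 h6
          induction E with
          | zero => omega
          | succ E ih =>
            rcases Nat.eq_zero_or_pos E with rfl | h
            · norm_num
            · have := ih h
              rw [pow_succ]
              omega
        calc 7 * E + 4 * E * 2 ^ (32 * E) ≤ 11 * E * 2 ^ (32 * E) := by nlinarith
          _ ≤ 2 ^ (4 * E) * 2 ^ (32 * E) := Nat.mul_le_mul_right _ h7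
          _ = 2 ^ (36 * E) := by rw [← pow_add]; ring_nf

/-- `E = ⌊loglog k / 36⌋` satisfies `n0 E ≤ k`. -/
lemma n0_le_of_loglog {E k : ℕ} (hE : 0 < E) (hk : 3 ≤ k)
    (h : 36 * (E : ℝ) ≤ Real.log (Real.log k)) : n0 E ≤ k := by
  have hk0 : (0 : ℝ) < k := by exact_mod_cast (by omega : 0 < k)
  have hk1 : (1 : ℝ) < k := by exact_mod_cast (by omega : 1 < k)
  have hlk : 0 < Real.log k := Real.log_pos hk1
  have h1 : Real.exp (36 * E) ≤ Real.log k := by
    rw [← Real.exp_log hlk]
    exact Real.exp_le_exp.mpr h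
  have h2 : (2 : ℝ) ^ (36 * E) ≤ Real.exp (36 * E) := by
    have h3 : Real.exp (36 * E) = Real.exp 1 ^ (36 * E) := by
      rw [← Real.exp_nat_mul]
      push_cast
      ring_nf
    rw [h3]
    apply pow_le_pow_left₀ (by norm_num)
    have := Real.add_one_le_exp (1 : ℝ)
    linarith
  have h4 : (2 : ℝ) ^ (2 ^ (36 * E)) ≤ Real.exp ((2 : ℝ) ^ (36 * E)) := by
    have h5 : Real.exp ((2 : ℝ) ^ (36 * E)) = Real.exp 1 ^ (2 ^ (36 * E)) := by
      rw [← Real.exp_nat_mul]
      push_cast
      ring_nf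
    rw [h5]
    apply pow_le_pow_left₀ (by norm_num)
    have := Real.add_one_le_exp (1 : ℝ)
    linarith
  have h6 : (2 : ℝ) ^ (2 ^ (36 * E)) ≤ k := by
    calc (2 : ℝ) ^ (2 ^ (36 * E)) ≤ Real.exp ((2 : ℝ) ^ (36 * E)) := h4
      _ ≤ Real.exp (Real.log k) := Real.exp_le_exp.mpr (h2.trans h1)
      _ = k := Real.exp_log hk0
  have h7 : (2 : ℕ) ^ (2 ^ (36 * E)) ≤ k := by exact_mod_cast h6
  exact (n0_le hE).trans h7

end H65M
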