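import Pool.Agent.Lib.H65M.Main

/-!
# One partition matroid: `N ≥ k + 2 √(2k)` columns suffice
-/

namespace H65M

open Finset

variable {α : Type*} [DecidableEq α] {ι : Type*} [Fintype ι] [DecidableEq ι]
  {Q : Sys α ι} {N : ℕ} {H T T' : Finset α} {i j : ι} {k : ℕ}

/-- all colours missing in some reachable state -/
noncomputable def Ri (Q : Sys α ι) (H T : Finset α) (i : ι) : Finset ι := by
  classical exact univ.filter (fun j => ∃ k T', Wk Q H k T i T' j)

lemma mem_Ri : j ∈ Ri Q H T i ↔ ∃ k T', Wk Q H k T i T' j := by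
  classical
  unfold Ri
  simp

lemma self_mem_Ri : i ∈ Ri Q H T i := mem_Ri.mpr ⟨0, T, Wk.nil _ _ _⟩

lemma Rc_sub_Ri (D : ℕ) : Rc Q H D T i ⊆ Ri Q H T i := by
  intro j hj
  rw [mem_Rc] at hj
  obtain ⟨T', h⟩ := hj
  exact mem_Ri.mpr ⟨D, T', h⟩

lemma exists_Rc_eq : ∃ D0, ∀ D ≥ D0, Rc Q H D T i = Ri Q H T i := by
  classical
  have h : ∀ j : ι, ∃ k, j ∈ Ri Q H T i → ∃ T', Wk Q H k T i T' j := by
    intro j
    by_cases hj : j ∈ Ri Q H T i
    · obtain ⟨k, T', hw⟩ := mem_Ri.mp hj
      exact ⟨k, fun _ => ⟨T', hw⟩⟩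
    · exact ⟨0, fun h => absurd h hj⟩
  choose K hK using h
  refine ⟨univ.sup K, fun D hD => ?_⟩
  apply Subset.antisymm (Rc_sub_Ri D)
  intro j hj
  obtain ⟨T', hw⟩ := hK j hj
  rw [mem_Rc]
  exact ⟨T', hw.mono ((le_sup (mem_univ j)).trans hD)⟩

lemma Ri_trans {Z : Finset α} (h : Wk Q H k T i T' j) : Ri Q (H ∪ Z) T' j ⊆ Ri Q H T i := by
  intro x hx
  obtain ⟨l, T2, h2⟩ := mem_Ri.mp hx
  exact mem_Ri.mpr ⟨k + l, T2, h.trans h2.anti⟩

/-- closure -/
lemma cl_inRi (hQ : Q.Good N) (h0 : St Q H T i) (hw : Wk Q H k T i T' j) {b : α}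
    (hb : b ∈ Q.B j) (hM : ¬ Q.M.Cl (T' ∪ H) b) : Q.P.Cl (inR Q (Ri Q H T i) T) b := by
  obtain ⟨D0, hD0⟩ := exists_Rc_eq (Q := Q) (H := H) (T := T) (i := i)
  have h1 := hD0 (max D0 (k + 1)) (le_max_left _ _)
  rw [← h1]
  exact cl_inR hQ h0 hw (le_max_right _ _) (inv_of_walk hQ h0 hw (by
    have := le_max_right D0 (k + 1)
    omega)) hb hM

lemma outRi_sub (hQ : Q.Good N) (h0 : St Q H T i) (hw : Wk Q H k T i T' j) :
    outR Q (Ri Q H T i) T ⊆ T' := by
  obtain ⟨D0, hD0⟩ := exists_Rc_eq (Q := Q) (H := H) (T := T) (i := i)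
  have h1 := hD0 (max D0 k) (le_max_left _ _)
  rw [← h1]
  exact (inv_of_walk hQ h0 hw (le_max_right _ _)).1

variable {π : α → Fin N}

/-- `M` is the partition matroid of `π` -/
def IsPart (Q : Sys α ι) (π : α → Fin N) : Prop :=
  ∀ X : Finset α, Q.M.Ind X ↔ Set.InjOn π (X : Set α)

lemma exists_at (hQ : Q.Good N) (hπ : IsPart Q π) (j : ι) (x : Fin N) :
    ∃ b ∈ Q.B j, π b = x := by
  have h1 : ((Q.B j).image π).card = (Q.B j).card :=
    card_image_of_injOn ((hπ _).mp (hQ.indM j))
  have h2 : (Q.B j).image π = univ := by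
    apply eq_univ_of_card
    have h3 : ((Q.B j).image π).card ≤ Fintype.card (Fin N) := card_le_univ _
    rw [Fintype.card_fin] at h3 ⊢
    have := hQ.card j
    omega
  have h3 : x ∈ (Q.B j).image π := by rw [h2]; exact mem_univ _
  rw [mem_image] at h3
  exact h3

/-- a vertex which is free in the state -/
lemma not_cl_of_free (hπ : IsPart Q π) {X : Finset α} (hX : Q.M.Ind X) {b : α}
    (hb : π b ∉ X.image π) : ¬ Q.M.Cl X b := by
  have hbX : b ∉ X := fun h => hb (mem_image_of_mem _ h)
  apply Rk.not_cl_of_ind hbX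
  rw [hπ]
  intro u hu v hv huv
  rw [coe_insert, Set.mem_insert_iff, mem_coe] at hu hv
  rcases hu with rfl | hu <;> rcases hv with rfl | hv
  · rfl
  · exact absurd (huv ▸ mem_image_of_mem π hv) hb
  · exact absurd (huv ▸ mem_image_of_mem π hu) hb
  · exact (hπ X).mp hX hu hv huv

/-- the vertices covered in all reachable states missing `j` -/
noncomputable def Lv (Q : Sys α ι) (π : α → Fin N) (H T : Finset α) (i j : ι) :
    Finset (Fin N) := by
  classical exact univ.filter (fun x => ∀ k T', Wk Q H k T i T' j → x ∈ (T' ∪ H).image π)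

lemma mem_Lv {x : Fin N} :
    x ∈ Lv Q π H T i j ↔ ∀ k T', Wk Q H k T i T' j → x ∈ (T' ∪ H).image π := by
  classical
  unfold Lv
  simp

/-- few vertices outside `L_j` -/
lemma card_Lv (hQ : Q.Good N) (hπ : IsPart Q π) (h0 : St Q H T i) (j : ι) :
    N ≤ (Lv Q π H T i j).card + (inR Q (Ri Q H T i) T).card := by
  classical
  choose b hb hbx using exists_at hQ hπ j
  set A : Finset α := (univ \ Lv Q π H T i j).image b with hA
  have hbi : Function.Injective b := by
    intro x y hxy
    rw [← hbx x, ← hbx y, hxy]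
  have h1 : A.card = (univ \ Lv Q π H T i j).card := card_image_of_injective _ hbi
  have h2 : A.card ≤ (inR Q (Ri Q H T i) T).card := by
    refine Rk.card_le_of_cl (M := Q.P) ((hQ.indP j).mono ?_) ?_
    · intro a ha
      rw [hA, mem_image] at ha
      obtain ⟨x, -, rfl⟩ := ha
      exact hb x
    · intro a ha
      rw [hA, mem_image] at ha
      obtain ⟨x, hx, rfl⟩ := ha
      rw [mem_sdiff, mem_Lv] at hx
      have hx2 := hx.2
      push Not at hx2
      obtain ⟨k, T', hw, hxT⟩ := hx2
      refine cl_inRi hQ h0 hw (hb x) (not_cl_of_free hπ (hw.st h0).indM ?_)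
      rw [hbx x]
      exact hxT
  have h3 : (univ \ Lv Q π H T i j).card + (Lv Q π H T i j).card = (univ : Finset (Fin N)).card :=
    card_sdiff_add_card_eq_card (subset_univ _)
  rw [card_univ, Fintype.card_fin] at h3
  omega

/-- every vertex outside the frozen part is free somewhere -/
lemma exists_free (hQ : Q.Good N) (hπ : IsPart Q π) (h0 : St Q H T i) {x : Fin N}
    (hx : x ∉ (outR Q (Ri Q H T i) T ∪ H).image π) :
    ∃ k T' i', Wk Q H k T i T' i' ∧ x ∉ (T' ∪ H).image π := by
  by_cases hxT : x ∈ (T ∪ H).image π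
  · rw [mem_image] at hxT
    obtain ⟨e, he, rfl⟩ := hxT
    have heT : e ∈ T := by
      rw [mem_union] at he
      rcases he with he | he
      · exact he
      · exact absurd (mem_image_of_mem π (mem_union_right _ he)) hx
    have heR : Q.c e ∈ Ri Q H T i := by
      by_contra hne
      apply hx
      apply mem_image_of_mem
      apply mem_union_left
      rw [outR, mem_filter]
      exact ⟨heT, hne⟩
    obtain ⟨k, T1, hw⟩ := mem_Ri.mp heR
    obtain ⟨y, hy, T2, hw2, -, hyn, hyI⟩ :=
      hw.hit h0 (X := {e}) (singleton_subset_iff.mpr heT) ⟨e, mem_singleton_self _, rfl⟩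
    rw [mem_singleton] at hy
    subst hy
    refine ⟨k, T2, _, hw2, ?_⟩
    intro hmem
    rw [mem_image] at hmem
    obtain ⟨z, hz, hzy⟩ := hmem
    have hinj := (hπ _).mp hyI
    have : z = y := hinj (by
      rw [coe_insert]; exact Set.mem_insert_of_mem _ hz) (by
      rw [coe_insert]; exact Set.mem_insert _ _) hzy
    rw [this] at hz
    exact hyn hz
  · exact ⟨0, T, i, Wk.nil _ _ _, hxT⟩

/-- adding a handicap vertex -/
lemma st_handicap (hπ : IsPart Q π) (h0 : St Q H T i) {h : α} (hh : π h ∉ (T ∪ H).image π) :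
    St Q (H ∪ {h}) T i where
  sub := h0.sub
  inj := h0.inj
  img := h0.img
  indM := by
    have h1 : T ∪ (H ∪ {h}) = insert h (T ∪ H) := by
      ext x
      simp only [mem_union, mem_insert, mem_singleton]
      tauto
    rw [h1]
    exact Rk.ind_insert h0.indM (not_cl_of_free hπ h0.indM hh)
  dis := by
    rw [disjoint_union_right]
    refine ⟨h0.dis, ?_⟩
    rw [disjoint_singleton_right]
    exact fun hT => hh (mem_image_of_mem _ (mem_union_left _ hT))
  indP := h0.indP

/-- double counting -/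
theorem part_ineq {q : ℕ} (hQ : Q.Good N) (hπ : IsPart Q π) (h0 : St Q H T i)
    (hst : ∀ k T' i' h, Wk Q H k T i T' i' → St Q (H ∪ {h}) T' i' →
      (Ri Q H T i).card ≤ (Ri Q (H ∪ {h}) T' i').card + q) :
    (Ri Q H T i).card * (N - T.card - H.card) ≤
      q * (N - T.card - H.card + (Ri Q H T i).card - 1) := by
  classical
  set R := Ri Q H T i with hR
  set F := (outR Q R T ∪ H).image π with hF
  have hRI : (inR Q R T).card + 1 = R.card := card_inR h0 self_mem_Ri
  have hio : (inR Q R T).card + (outR Q R T).card = T.card :=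
    card_filter_add_card_filter_not _
  have houtT : outR Q R T ⊆ T := filter_subset _ _
  have hFc : F.card = (outR Q R T).card + H.card := by
    rw [hF, card_image_of_injOn, card_union_of_disjoint (h0.dis.mono_left houtT)]
    exact ((hπ _).mp h0.indM).mono (coe_subset.mpr (union_subset_union_left houtT))
  have hTH : T.card + H.card ≤ N := by
    have h1 : ((T ∪ H).image π).card = (T ∪ H).card := card_image_of_injOn ((hπ _).mp h0.indM)
    have h2 : ((T ∪ H).image π).card ≤ Fintype.card (Fin N) := card_le_univ _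
    rw [card_union_of_disjoint h0.dis] at h1
    rw [Fintype.card_fin] at h2
    omega
  -- the frozen part is in all L_j
  have hFL : ∀ j, F ⊆ Lv Q π H T i j := by
    intro j x hx
    rw [mem_Lv]
    intro k T' hw
    have h1 := outRi_sub hQ h0 hw
    exact image_subset_image (union_subset_union_left h1) hx
  -- lower bound
  have hlow : ∀ j ∈ R, N - T.card - H.card ≤ ((univ \ F).filter
      (fun x => x ∈ Lv Q π H T i j)).card := by
    intro j _
    have h1 : (univ \ F).filter (fun x => x ∈ Lv Q π H T i j) = Lv Q π H T i j \ F := by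
      ext x
      simp only [mem_filter, mem_sdiff, mem_univ, true_and]
      tauto
    rw [h1]
    have h2 := card_sdiff_add_card_eq_card (hFL j)
    have h3 := card_Lv hQ hπ h0 j
    rw [← hR] at h3
    omega
  -- upper bound
  have hup : ∀ x ∈ univ \ F, (R.filter (fun j => x ∈ Lv Q π H T i j)).card ≤ q := by
    intro x hx
    obtain ⟨k, T', i', hw, hfree⟩ := exists_free hQ hπ h0 (x := x) (mem_sdiff.mp hx).2
    obtain ⟨h, -, hh⟩ := exists_at hQ hπ i x
    have hs' := st_handicap hπ (hw.st h0) (h := h) (by rw [hh]; exact hfree)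
    have h1 := hst k T' i' h hw hs'
    have h2 : Ri Q (H ∪ {h}) T' i' ⊆ R := Ri_trans hw
    have h3 : R.filter (fun j => x ∈ Lv Q π H T i j) ⊆ R \ Ri Q (H ∪ {h}) T' i' := by
      intro j hj
      rw [mem_filter] at hj
      rw [mem_sdiff]
      refine ⟨hj.1, fun hjR => ?_⟩
      obtain ⟨l, T2, hw2⟩ := mem_Ri.mp hjR
      have hs2 := hw2.st hs'
      have h4 := (mem_Lv.mp hj.2) (k + l) T2 (hw.trans hw2.anti)
      rw [mem_image] at h4
      obtain ⟨z, hz, hzx⟩ := h4
      have hinj := (hπ _).mp hs2.indM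
      have hh2 : h ∈ T2 ∪ (H ∪ {h}) := by simp
      have hz2 : z ∈ T2 ∪ (H ∪ {h}) := by
        rw [mem_union] at hz ⊢
        rcases hz with hz | hz
        · exact Or.inl hz
        · exact Or.inr (mem_union_left _ hz)
      have hzh : z = h := hinj hz2 hh2 (hzx.trans hh.symm)
      rw [hzh, mem_union] at hz
      rcases hz with hz | hz
      · exact (disjoint_left.mp hs2.dis) hz (by simp)
      · apply hfree
        rw [← hh]
        exact mem_image_of_mem _ (mem_union_right _ hz)
    have h5 := card_le_card h3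
    have h6 := card_sdiff_add_card_eq_card h2
    omega
  have hdc := sum_card_bipartiteAbove_eq_sum_card_bipartiteBelow
    (s := R) (t := univ \ F) (fun j x => x ∈ Lv Q π H T i j)
  have hl : R.card * (N - T.card - H.card) ≤
      ∑ j ∈ R, ((univ \ F).bipartiteAbove (fun j x => x ∈ Lv Q π H T i j) j).card := by
    rw [← smul_eq_mul, ← sum_const]
    exact sum_le_sum (fun j hj => hlow j hj)
  have hr : ∑ x ∈ univ \ F, (R.bipartiteBelow (fun j x => x ∈ Lv Q π H T i j) x).card ≤
      (univ \ F).card * q := by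
    rw [← smul_eq_mul, ← sum_const]
    exact sum_le_sum (fun x hx => hup x hx)
  have hc : (univ \ F).card + F.card = N := by
    have := card_sdiff_add_card_eq_card (subset_univ F)
    rw [card_univ, Fintype.card_fin] at this
    exact this
  have hfin : (univ \ F).card = N - T.card - H.card + R.card - 1 := by omega
  rw [hfin] at hr
  calc R.card * (N - T.card - H.card) ≤ _ := hl
    _ = _ := hdc
    _ ≤ _ := hr
    _ = q * (N - T.card - H.card + R.card - 1) := Nat.mul_comm _ _

/-- induction on `t = N - |T| - |H| - 1` -/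
theorem part_level (hQ : Q.Good N) (hπ : IsPart Q π) :
    ∀ t : ℕ, ∀ (T H : Finset α) (i : ι), St Q H T i → T.card + H.card + t + 1 ≤ N →
      t * (t + 1) + 4 ≤ 2 * (Ri Q H T i).card := by
  intro t
  induction t with
  | zero =>
    intro T H i hs hN
    by_contra hcon
    push Not at hcon
    have h1 := part_ineq (q := 0) hQ hπ hs (by
      intro l T' i' h _ _
      have h3 : 0 < (Ri Q (H ∪ {h}) T' i').card := card_pos.mpr ⟨i', self_mem_Ri⟩
      omega)
    have hRpos : 0 < (Ri Q H T i).card := card_pos.mpr ⟨i, self_mem_Ri⟩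
    rw [Nat.zero_mul] at h1
    have h2 : 0 < (Ri Q H T i).card * (N - T.card - H.card) := Nat.mul_pos hRpos (by omega)
    omega
  | succ t ih =>
    intro T H i hs hN
    by_contra hcon
    push Not at hcon
    have hev : Even (t * (t + 1)) := Nat.even_mul_succ_self t
    obtain ⟨v, hv⟩ := hev
    have hcon' : 2 * (Ri Q H T i).card < t * (t + 1) + 2 * t + 6 := by
      have e : (t + 1) * (t + 1 + 1) + 4 = t * (t + 1) + 2 * t + 6 := by ring
      omega
    have h1 := part_ineq (q := t) hQ hπ hs (by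
      intro l T' i' h hw hs'
      have h2 : (H ∪ {h}).card ≤ H.card + 1 := by
        have := card_union_le H {h}
        simpa using this
      have hT' : T'.card = T.card := by
        have h3 := hs.card
        have h4 := hs'.card
        omega
      have h3 := ih T' (H ∪ {h}) i' hs' (by omega)
      omega)
    have h2 := ih T H i hs (by omega)
    set R := (Ri Q H T i).card with hR
    obtain ⟨u, hu⟩ : ∃ u, N - T.card - H.card = t + 2 + u :=
      ⟨N - T.card - H.card - (t + 2), by omega⟩
    rw [hu] at h1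
    have h3 : t + 2 + u + R - 1 = t + 1 + u + R := by omega
    rw [h3] at h1
    nlinarith [Nat.zero_le (u * t), Nat.zero_le (u * (t * t))]

end H65M
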