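import Mathlib

/-!
# Rank functions on finite sets

`Rk α`: an integer valued, monotone, submodular function with `r X ≤ |X|` (a matroid rank function;
unit increase follows).  `Ind X`: `r X = |X|`.  `Cl X a`: `r (X + a) = r X`.
-/

namespace H65M

structure Rk (α : Type*) [DecidableEq α] where
  r : Finset α → ℕ
  le_card : ∀ X, r X ≤ X.card
  mono : ∀ X Y, X ⊆ Y → r X ≤ r Y
  submod : ∀ X Y, r (X ∪ Y) + r (X ∩ Y) ≤ r X + r Y

namespace Rk

variable {α : Type*} [DecidableEq α] (M : Rk α)

def Ind (X : Finset α) : Prop := M.r X = X.card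

def Cl (X : Finset α) (a : α) : Prop := M.r (insert a X) = M.r X

variable {M}

lemma r_union_le (X Y : Finset α) : M.r (X ∪ Y) ≤ M.r X + M.r Y := by
  have := M.submod X Y
  omega

lemma r_union_le' (X Y : Finset α) : M.r (X ∪ Y) ≤ M.r X + Y.card :=
  (r_union_le X Y).trans (Nat.add_le_add_left (M.le_card Y) _)

lemma r_insert_le (X : Finset α) (a : α) : M.r (insert a X) ≤ M.r X + 1 := by
  have h := r_union_le' (M := M) X {a}
  have h2 : insert a X = X ∪ {a} := by
    ext x; simp [or_comm]
  rw [h2]
  simpa using h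

lemma Ind.mono {X Y : Finset α} (h : M.Ind Y) (hX : X ⊆ Y) : M.Ind X := by
  have h1 := r_union_le' (M := M) X (Y \ X)
  have h2 : X ∪ (Y \ X) = Y := Finset.union_sdiff_of_subset hX
  rw [h2, h] at h1
  have h3 := Finset.card_sdiff_add_card_eq_card hX
  have h4 := M.le_card X
  unfold Ind
  omega

lemma ind_empty : M.Ind ∅ := by
  have := M.le_card ∅
  unfold Ind
  simpa using this

lemma cl_of_mem {X : Finset α} {a : α} (h : a ∈ X) : M.Cl X a := by
  unfold Cl
  rw [Finset.insert_eq_of_mem h]

lemma Cl.mono {X Y : Finset α} {a : α} (h : M.Cl X a) (hX : X ⊆ Y) : M.Cl Y a := by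
  have h1 := M.submod (insert a X) Y
  have h2 : insert a X ∪ Y = insert a Y := by
    ext x
    simp only [Finset.mem_union, Finset.mem_insert]
    constructor
    · rintro ((h | h) | h)
      · exact Or.inl h
      · exact Or.inr (hX h)
      · exact Or.inr h
    · rintro (h | h)
      · exact Or.inl (Or.inl h)
      · exact Or.inr h
  have h3 : M.r X ≤ M.r (insert a X ∩ Y) :=
    M.mono _ _ (Finset.subset_inter (Finset.subset_insert _ _) hX)
  have h4 : M.r Y ≤ M.r (insert a Y) := M.mono _ _ (Finset.subset_insert _ _)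
  rw [h2] at h1
  unfold Cl at h ⊢
  omega

lemma r_union_of_cl {X : Finset α} (A : Finset α) (h : ∀ a ∈ A, M.Cl X a) :
    M.r (X ∪ A) = M.r X := by
  induction A using Finset.induction_on with
  | empty => simp
  | insert a A ha ih =>
    have h1 := ih (fun b hb => h b (Finset.mem_insert_of_mem hb))
    have h2 : M.Cl (X ∪ A) a := (h a (Finset.mem_insert_self _ _)).mono Finset.subset_union_left
    unfold Cl at h2
    rw [Finset.union_insert, h2, h1]

lemma cl_trans {X A : Finset α} {b : α} (h : ∀ a ∈ A, M.Cl X a) (hb : M.Cl (X ∪ A) b) :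
    M.Cl X b := by
  have h1 := r_union_of_cl A h
  have h2 : M.r (insert b X) ≤ M.r (insert b (X ∪ A)) :=
    M.mono _ _ (Finset.insert_subset_insert _ Finset.subset_union_left)
  have h3 : M.r X ≤ M.r (insert b X) := M.mono _ _ (Finset.subset_insert _ _)
  unfold Cl at hb ⊢
  omega

lemma ind_insert {X : Finset α} {a : α} (h : M.Ind X) (ha : ¬ M.Cl X a) :
    M.Ind (insert a X) := by
  have hX : a ∉ X := fun hX => ha (cl_of_mem hX)
  have h1 := r_insert_le (M := M) X a
  have h2 : M.r X ≤ M.r (insert a X) := M.mono _ _ (Finset.subset_insert _ _)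
  unfold Ind Cl at *
  rw [Finset.card_insert_of_notMem hX]
  omega

lemma cl_of_not_ind {X : Finset α} {a : α} (h : M.Ind X) (ha : ¬ M.Ind (insert a X)) :
    M.Cl X a := by
  by_contra hc
  exact ha (ind_insert h hc)

lemma not_cl_of_ind {X : Finset α} {a : α} (hX : a ∉ X) (h : M.Ind (insert a X)) :
    ¬ M.Cl X a := by
  intro hc
  have h1 := M.le_card X
  unfold Ind Cl at *
  rw [Finset.card_insert_of_notMem hX] at h
  omega

lemma card_le_of_cl {X A : Finset α} (hA : M.Ind A) (h : ∀ a ∈ A, M.Cl X a) :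
    A.card ≤ X.card := by
  have h1 := r_union_of_cl A h
  have h2 : M.r A ≤ M.r (X ∪ A) := M.mono _ _ Finset.subset_union_right
  have h3 := M.le_card X
  unfold Ind at hA
  omega

/-- `a` is in the closure of its fundamental circuit. -/
lemma cl_circ {T : Finset α} {a : α} (hT : M.Ind T) (ha : a ∉ T) (hc : M.Cl T a) :
    ∃ C ⊆ T, M.Cl C a ∧ ∀ e ∈ C, M.Ind (insert a (T.erase e)) := by
  classical
  -- minimal subset with `a` in the closure
  have hne : (T.powerset.filter (fun W => M.Cl W a)).Nonempty :=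
    ⟨T, by simp [hc]⟩
  obtain ⟨W, hW, hmin⟩ := Finset.exists_min_image _ Finset.card hne
  rw [Finset.mem_filter, Finset.mem_powerset] at hW
  refine ⟨W, hW.1, hW.2, fun e he => ?_⟩
  by_contra hni
  have heT : e ∈ T := hW.1 he
  have h1 : M.Ind (T.erase e) := hT.mono (Finset.erase_subset _ _)
  have h2 : M.Cl (T.erase e) a := cl_of_not_ind h1 hni
  -- submodularity
  have h3 := M.submod (insert a W) (insert a (T.erase e))
  have h4 : insert a W ∪ insert a (T.erase e) = insert a T := by
    ext x
    simp only [Finset.mem_union, Finset.mem_insert, Finset.mem_erase]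
    constructor
    · rintro ((h | h) | (h | h))
      · exact Or.inl h
      · exact Or.inr (hW.1 h)
      · exact Or.inl h
      · exact Or.inr h.2
    · rintro (h | h)
      · exact Or.inl (Or.inl h)
      · by_cases hx : x = e
        · exact Or.inl (Or.inr (hx ▸ he))
        · exact Or.inr (Or.inr ⟨hx, h⟩)
  have h5 : M.r (insert a (W.erase e)) ≤ M.r (insert a W ∩ insert a (T.erase e)) := by
    apply M.mono
    intro x hx
    rw [Finset.mem_insert, Finset.mem_erase] at hx
    rw [Finset.mem_inter, Finset.mem_insert, Finset.mem_insert, Finset.mem_erase]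
    rcases hx with hx | hx
    · exact ⟨Or.inl hx, Or.inl hx⟩
    · exact ⟨Or.inr hx.2, Or.inr ⟨hx.1, hW.1 hx.2⟩⟩
  have hWi : M.Ind W := hT.mono hW.1
  have hWe : M.Ind (W.erase e) := hWi.mono (Finset.erase_subset _ _)
  have c1 := Finset.card_erase_of_mem he
  have c2 := Finset.card_erase_of_mem heT
  have c3 : 0 < W.card := Finset.card_pos.mpr ⟨e, he⟩
  have c4 : 0 < T.card := Finset.card_pos.mpr ⟨e, heT⟩
  have h6 : M.Cl (W.erase e) a := by
    have h7 : M.r (W.erase e) ≤ M.r (insert a (W.erase e)) :=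
      M.mono _ _ (Finset.subset_insert _ _)
    have e1 := hW.2
    rw [h4] at h3
    unfold Cl Ind at *
    omega
  have := hmin (W.erase e) (by
    rw [Finset.mem_filter, Finset.mem_powerset]
    exact ⟨(Finset.erase_subset _ _).trans hW.1, h6⟩)
  omega

end Rk

end H65M
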