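import Pool.Agent.Lib.H65M.Rk

/-!
# Walks

A system: two rank functions `M`, `P` on the subsets of a finite set `S` with a colouring `c : α → ι`,
the colour classes are independent for both and have at least `N` elements.  State `(T, i)`: `T` is
independent for both and has exactly one element of each colour `≠ i`, none of colour `i`.
An `H`-move (`H`: handicap, `T ∪ H` is `M`-independent): add `a` of colour `i` with `T ∪ H + a`
`M`-independent, remove `e ∈ T` with `T + a - e` `P`-independent.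
-/

namespace H65M

open Finset

variable {α : Type*} [DecidableEq α] {ι : Type*} [Fintype ι] [DecidableEq ι]

structure Sys (α : Type*) [DecidableEq α] (ι : Type*) where
  M : Rk α
  P : Rk α
  S : Finset α
  c : α → ι

/-- the colour class -/
def Sys.B (Q : Sys α ι) (i : ι) : Finset α := Q.S.filter (fun a => Q.c a = i)

structure Sys.Good (Q : Sys α ι) (N : ℕ) : Prop where
  card : ∀ i, N ≤ (Q.B i).card
  indM : ∀ i, Q.M.Ind (Q.B i)
  indP : ∀ i, Q.P.Ind (Q.B i)
  /-- there is no full rainbow set -/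
  nofull : ∀ F : Finset α, F ⊆ Q.S → Set.InjOn Q.c (F : Set α) → F.image Q.c = univ →
    Q.M.Ind F → Q.P.Ind F → False

structure St (Q : Sys α ι) (H T : Finset α) (i : ι) : Prop where
  sub : T ⊆ Q.S
  inj : Set.InjOn Q.c (T : Set α)
  img : T.image Q.c = univ.erase i
  indM : Q.M.Ind (T ∪ H)
  dis : Disjoint T H
  indP : Q.P.Ind T

/-- a move -/
def Mv (Q : Sys α ι) (H T : Finset α) (i : ι) (T' : Finset α) (j : ι) : Prop :=
  ∃ a e, a ∈ Q.S ∧ Q.c a = i ∧ a ∉ H ∧ Q.M.Ind (insert a (T ∪ H)) ∧ e ∈ T ∧ Q.c e = j ∧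
    Q.P.Ind (insert a (T.erase e)) ∧ T' = insert a (T.erase e)

/-- walks of at most `k` moves -/
inductive Wk (Q : Sys α ι) (H : Finset α) : ℕ → Finset α → ι → Finset α → ι → Prop
  | nil (k : ℕ) (T : Finset α) (i : ι) : Wk Q H k T i T i
  | cons {k : ℕ} {T : Finset α} {i : ι} {T1 : Finset α} {i1 : ι} {T2 : Finset α} {i2 : ι} :
      Mv Q H T i T1 i1 → Wk Q H k T1 i1 T2 i2 → Wk Q H (k + 1) T i T2 i2

/-- the colours missing after walks of at most `k` moves -/
noncomputable def Rc (Q : Sys α ι) (H : Finset α) (k : ℕ) (T : Finset α) (i : ι) : Finset ι := by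
  classical exact univ.filter (fun j => ∃ T', Wk Q H k T i T' j)

variable {Q : Sys α ι} {H T T' Z : Finset α} {i j : ι} {k l : ℕ}

lemma mem_Rc : j ∈ Rc Q H k T i ↔ ∃ T', Wk Q H k T i T' j := by
  classical
  unfold Rc
  simp

namespace St

lemma notMem (h : St Q H T i) {a : α} (ha : Q.c a = i) : a ∉ T := by
  intro haT
  have h1 : Q.c a ∈ T.image Q.c := mem_image_of_mem _ haT
  rw [h.img, ha] at h1
  exact absurd rfl (ne_of_mem_erase h1)

lemma card (h : St Q H T i) : T.card + 1 = Fintype.card ι := by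
  have h1 : (T.image Q.c).card = T.card := card_image_of_injOn h.inj
  rw [h.img, card_erase_of_mem (mem_univ i), card_univ] at h1
  have : 0 < Fintype.card ι := Fintype.card_pos_iff.mpr ⟨i⟩
  omega

lemma exists_mem (h : St Q H T i) (hj : j ≠ i) : ∃ e ∈ T, Q.c e = j := by
  have h1 : j ∈ T.image Q.c := by
    rw [h.img]
    exact mem_erase.mpr ⟨hj, mem_univ _⟩
  simpa using h1

lemma anti (h : St Q (H ∪ Z) T i) : St Q H T i where
  sub := h.sub
  inj := h.inj
  img := h.img
  indM := h.indM.mono (union_subset_union_right subset_union_left)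
  dis := h.dis.mono_right subset_union_left
  indP := h.indP

lemma mv (h : St Q H T i) (hm : Mv Q H T i T' j) : St Q H T' j := by
  obtain ⟨a, e, haS, hai, haH, hM, heT, hej, hP, rfl⟩ := hm
  have haT : a ∉ T := h.notMem hai
  have hij : i ≠ j := by
    intro hij
    have h1 : Q.c e ∈ T.image Q.c := mem_image_of_mem _ heT
    rw [h.img, hej, hij] at h1
    exact absurd rfl (ne_of_mem_erase h1)
  refine ⟨?_, ?_, ?_, ?_, ?_, hP⟩
  · exact insert_subset haS ((erase_subset _ _).trans h.sub)
  · intro x hx y hy hxy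
    rw [coe_insert, Set.mem_insert_iff, mem_coe, mem_erase] at hx hy
    rcases hx with rfl | hx <;> rcases hy with rfl | hy
    · rfl
    · exfalso
      exact h.notMem (hxy ▸ hai) hy.2
    · exfalso
      exact h.notMem (hxy ▸ hai) hx.2
    · exact h.inj hx.2 hy.2 hxy
  · ext x
    rw [mem_image, mem_erase]
    constructor
    · rintro ⟨y, hy, rfl⟩
      refine ⟨?_, mem_univ _⟩
      rw [mem_insert, mem_erase] at hy
      rcases hy with rfl | hy
      · rw [hai]; exact hij
      · intro hyj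
        exact hy.1 (h.inj hy.2 heT (hyj.trans hej.symm))
    · rintro ⟨hx, -⟩
      by_cases hxi : x = i
      · exact ⟨a, mem_insert_self _ _, hai.trans hxi.symm⟩
      · obtain ⟨y, hy, hyx⟩ := h.exists_mem hxi
        refine ⟨y, mem_insert_of_mem (mem_erase.mpr ⟨?_, hy⟩), hyx⟩
        rintro rfl
        exact hx (hyx.symm.trans hej)
  · refine hM.mono ?_
    intro x hx
    rw [mem_union, mem_insert, mem_erase] at hx
    rw [mem_insert, mem_union]
    tauto
  · rw [disjoint_left]
    intro x hx hxH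
    rw [mem_insert, mem_erase] at hx
    rcases hx with rfl | hx
    · exact haH hxH
    · exact (disjoint_left.mp h.dis) hx.2 hxH

end St

namespace Mv

lemma anti (hm : Mv Q (H ∪ Z) T i T' j) : Mv Q H T i T' j := by
  obtain ⟨a, e, haS, hai, haH, hM, heT, hej, hP, rfl⟩ := hm
  refine ⟨a, e, haS, hai, fun h => haH (mem_union_left _ h), ?_, heT, hej, hP, rfl⟩
  exact hM.mono (insert_subset_insert _ (union_subset_union_right subset_union_left))

end Mv

namespace Wk

lemma mono (h : Wk Q H k T i T' j) (hkl : k ≤ l) : Wk Q H l T i T' j := by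
  induction h generalizing l with
  | nil k T i => exact Wk.nil _ _ _
  | cons hm _ ih =>
    obtain ⟨l', rfl⟩ : ∃ l', l = l' + 1 := ⟨l - 1, by omega⟩
    exact Wk.cons hm (ih (by omega))

lemma trans {T2 : Finset α} {i2 : ι} (h : Wk Q H k T i T' j) (h2 : Wk Q H l T' j T2 i2) :
    Wk Q H (k + l) T i T2 i2 := by
  induction h with
  | nil k T i => exact h2.mono (by omega)
  | cons hm _ ih =>
    have := Wk.cons hm (ih h2)
    refine this.mono (by omega)

lemma snoc {T2 : Finset α} {i2 : ι} (h : Wk Q H k T i T' j) (h2 : Mv Q H T' j T2 i2) :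
    Wk Q H (k + 1) T i T2 i2 :=
  h.trans (Wk.cons h2 (Wk.nil 0 _ _))

lemma anti (h : Wk Q (H ∪ Z) k T i T' j) : Wk Q H k T i T' j := by
  induction h with
  | nil k T i => exact Wk.nil _ _ _
  | cons hm _ ih => exact Wk.cons hm.anti ih

lemma st (h : Wk Q H k T i T' j) (hs : St Q H T i) : St Q H T' j := by
  induction h with
  | nil k T i => exact hs
  | cons hm _ ih => exact ih (hs.mv hm)

lemma dist (h : Wk Q H k T i T' j) : (T \ T').card ≤ k := by
  induction h with
  | nil k T i => simp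
  | @cons k T i T1 i1 T2 i2 hm _ ih =>
    obtain ⟨a, e, haS, hai, haH, hM, heT, hej, hP, rfl⟩ := hm
    have h1 : T \ T2 ⊆ insert e (insert a (T.erase e) \ T2) := by
      intro x hx
      rw [mem_sdiff] at hx
      rw [mem_insert, mem_sdiff, mem_insert, mem_erase]
      tauto
    have h2 := card_le_card h1
    have h3 := card_insert_le e (insert a (T.erase e) \ T2)
    omega

/-- first removal of an element of `X` -/
lemma hit (h : Wk Q H k T i T' j) (hs : St Q H T i) {X : Finset α} (hX : X ⊆ T)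
    (hj : ∃ x ∈ X, Q.c x = j) :
    ∃ x ∈ X, ∃ T2, Wk Q H k T i T2 (Q.c x) ∧ X.erase x ⊆ T2 ∧ x ∉ T2 ∪ H ∧
      Q.M.Ind (insert x (T2 ∪ H)) := by
  induction h with
  | nil k T i =>
    obtain ⟨x, hx, hxi⟩ := hj
    exact absurd (hX hx) (hs.notMem hxi)
  | @cons k T i T1 i1 T2 i2 hm _ ih =>
    have hs1 := hs.mv hm
    have hm' := hm
    obtain ⟨a, e, haS, hai, haH, hM, heT, hej, hP, rfl⟩ := hm
    have haT : a ∉ T := hs.notMem hai
    by_cases heX : e ∈ X
    · refine ⟨e, heX, insert a (T.erase e), ?_, ?_, ?_, ?_⟩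
      · rw [hej]
        exact Wk.cons hm' (Wk.nil _ _ _)
      · intro x hx
        rw [mem_erase] at hx
        exact mem_insert_of_mem (mem_erase.mpr ⟨hx.1, hX hx.2⟩)
      · rw [mem_union, mem_insert, mem_erase]
        rintro ((rfl | h) | h)
        · exact haT heT
        · exact h.1 rfl
        · exact (disjoint_left.mp hs.dis) heT h
      · refine hM.mono ?_
        intro x hx
        rw [mem_insert, mem_union, mem_insert, mem_erase] at hx
        rw [mem_insert, mem_union]
        rcases hx with rfl | (hx | hx) | hx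
        · exact Or.inr (Or.inl heT)
        · exact Or.inl hx
        · exact Or.inr (Or.inl hx.2)
        · exact Or.inr (Or.inr hx)
    · obtain ⟨x, hx, T3, hw, h1, h2, h3⟩ := ih hs1 (by
        intro x hx
        exact mem_insert_of_mem (mem_erase.mpr ⟨fun h => heX (h ▸ hx), hX hx⟩)) hj
      exact ⟨x, hx, T3, Wk.cons hm' hw, h1, h2, h3⟩

end Wk

lemma Rc_mono (hkl : k ≤ l) : Rc Q H k T i ⊆ Rc Q H l T i := by
  intro j hj
  rw [mem_Rc] at hj ⊢
  obtain ⟨T', h⟩ := hj
  exact ⟨T', h.mono hkl⟩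

lemma self_mem_Rc : i ∈ Rc Q H k T i := by
  rw [mem_Rc]
  exact ⟨T, Wk.nil _ _ _⟩

lemma Rc_trans (h : Wk Q H k T i T' j) : Rc Q (H ∪ Z) l T' j ⊆ Rc Q H (k + l) T i := by
  intro x hx
  rw [mem_Rc] at hx ⊢
  obtain ⟨T2, h2⟩ := hx
  exact ⟨T2, h.trans h2.anti⟩

/-- a missing colour: an element `b` of the missing colour free in `M` is in the `P`-closure of the
elements of `T` which can be removed in the next move. -/
lemma cl_next {N : ℕ} (hQ : Q.Good N) (hs : St Q H T i) {b : α} (hb : b ∈ Q.B i)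
    (hM : ¬ Q.M.Cl (T ∪ H) b) :
    ∃ C ⊆ T, Q.P.Cl C b ∧ ∀ e ∈ C, ∃ T', Mv Q H T i T' (Q.c e) := by
  have hb' := hb
  rw [Sys.B, mem_filter] at hb
  have hbT : b ∉ T := hs.notMem hb.2
  have hbH : b ∉ H := fun h => hM (Rk.cl_of_mem (mem_union_right _ h))
  have hMi : Q.M.Ind (insert b (T ∪ H)) := Rk.ind_insert hs.indM hM
  have hP : ¬ Q.P.Ind (insert b T) := by
    intro hP
    refine hQ.nofull (insert b T) (insert_subset hb.1 hs.sub) ?_ ?_
      (hMi.mono (insert_subset_insert _ subset_union_left)) hP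
    · intro x hx y hy hxy
      rw [coe_insert, Set.mem_insert_iff, mem_coe] at hx hy
      rcases hx with rfl | hx <;> rcases hy with rfl | hy
      · rfl
      · exact absurd hy (hs.notMem (hxy ▸ hb.2))
      · exact absurd hx (hs.notMem (hxy ▸ hb.2))
      · exact hs.inj hx hy hxy
    · rw [image_insert, hs.img, hb.2]
      exact insert_erase (mem_univ _)
  obtain ⟨C, hCT, hC, hCe⟩ := Rk.cl_circ hs.indP hbT (Rk.cl_of_not_ind hs.indP hP)
  refine ⟨C, hCT, hC, fun e he => ⟨insert b (T.erase e), b, e, hb.1, hb.2, hbH, hMi, hCT he, rfl,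
    hCe e he, rfl⟩⟩

/-- one step reaches many colours -/
lemma first_step {N : ℕ} (hQ : Q.Good N) (hs : St Q H T i) :
    N ≤ T.card + H.card + (Rc Q H 1 T i).card := by
  classical
  set A := (Q.B i).filter (fun b => ¬ Q.M.Cl (T ∪ H) b) with hA
  set A' := (Q.B i).filter (fun b => Q.M.Cl (T ∪ H) b) with hA'
  have hc : A'.card + A.card = (Q.B i).card := card_filter_add_card_filter_not _
  have h1 : A'.card ≤ (T ∪ H).card :=
    Rk.card_le_of_cl ((hQ.indM i).mono (filter_subset _ _)) (fun a ha => (mem_filter.mp ha).2)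
  have h2 : (T ∪ H).card ≤ T.card + H.card := card_union_le _ _
  set C := T.filter (fun e => Q.c e ∈ Rc Q H 1 T i) with hC
  have h3 : A.card ≤ C.card := by
    refine Rk.card_le_of_cl ((hQ.indP i).mono (filter_subset _ _)) (fun a ha => ?_)
    rw [hA, mem_filter] at ha
    obtain ⟨D, hDT, hD, hDe⟩ := cl_next hQ hs ha.1 ha.2
    refine hD.mono ?_
    intro e he
    rw [hC, mem_filter]
    refine ⟨hDT he, ?_⟩
    rw [mem_Rc]
    obtain ⟨T', hT'⟩ := hDe e he
    exact ⟨T', Wk.cons hT' (Wk.nil _ _ _)⟩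
  have h4 : C.card ≤ (Rc Q H 1 T i).card := by
    rw [← card_image_of_injOn (f := Q.c) (s := C) (hs.inj.mono (by
      rw [hC]; exact coe_subset.mpr (filter_subset _ _)))]
    apply card_le_card
    intro x hx
    rw [mem_image] at hx
    obtain ⟨y, hy, rfl⟩ := hx
    exact (mem_filter.mp hy).2
  have h5 := hQ.card i
  omega

end H65M
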